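import Pool.Agent.helper65.VQ.PIZ

/-!
# MP_07c750, project VQ, row EHZ (second moment of the Hilbert-Schmidt norm of a word)
-/

set_option autoImplicit false

open scoped ENNReal ComplexConjugate
open MeasureTheory Filter Set

namespace Pool.Agent.VQ

open Pool.Agent.RPQ (IsOp IsMul OProj wrd PJ und1 nst mks)

theorem EHZ_amgm (a b : ENNReal) : a * b ≤ 2⁻¹ * (a ^ 2 + b ^ 2) := by
  by_cases ha : a = ⊤
  · subst ha
    rw [ENNReal.top_pow two_ne_zero, top_add, ENNReal.mul_top (ENNReal.inv_ne_zero.mpr ENNReal.ofNat_ne_top)]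
    exact le_top
  · by_cases hb : b = ⊤
    · subst hb
      rw [ENNReal.top_pow two_ne_zero, add_top, ENNReal.mul_top (ENNReal.inv_ne_zero.mpr ENNReal.ofNat_ne_top)]
      exact le_top
    · lift a to NNReal using ha
      lift b to NNReal using hb
      have h : 2 * a * b ≤ a ^ 2 + b ^ 2 := two_mul_le_add_sq a b
      have h2 : (2 : ENNReal) * ((a : ENNReal) * b) ≤ (a : ENNReal) ^ 2 + (b : ENNReal) ^ 2 := by
        rw [← mul_assoc]
        exact_mod_cast h
      calc (a : ENNReal) * b = 2⁻¹ * (2 * ((a : ENNReal) * b)) := by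
            rw [← mul_assoc, ENNReal.inv_mul_cancel two_ne_zero ENNReal.ofNat_ne_top, one_mul]
        _ ≤ _ := by gcongr

theorem EHZ_nm {Ω : Type} [MeasurableSpace Ω] {J : ℕ} (F : Ω → Set (Fin J)) (hF : ∀ a, MeasurableSet {p | a ∈ F p}) (nc : ℕ) :
    MeasurableSet {p | (F p).ncard < nc} := by
  classical
  have h1 : {p | (F p).ncard < nc} = ⋃ s ∈ {s : Set (Fin J) | s.ncard < nc}, {p | F p = s} := by
    ext p
    constructor
    · intro h
      exact Set.mem_biUnion (x := F p) (show (F p).ncard < nc from h) (show F p = F p from rfl)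
    · intro h
      rw [Set.mem_iUnion₂] at h
      obtain ⟨s, hs, hp⟩ := h
      have hp' : F p = s := hp
      show (F p).ncard < nc
      rw [hp']
      exact hs
  rw [h1]
  refine MeasurableSet.biUnion (Set.to_countable _) fun s _ => ?_
  have h2 : {p | F p = s} = ⋂ a : Fin J, (if a ∈ s then {p | a ∈ F p} else {p | a ∈ F p}ᶜ) := by
    ext p
    rw [Set.mem_iInter]
    constructor
    · intro h a
      have h' : F p = s := h
      by_cases ha : a ∈ s
      · rw [if_pos ha]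
        show a ∈ F p
        rw [h']
        exact ha
      · rw [if_neg ha]
        show ¬ a ∈ F p
        rw [h']
        exact ha
    · intro h
      show F p = s
      ext a
      have := h a
      by_cases ha : a ∈ s
      · rw [if_pos ha] at this
        exact ⟨fun _ => ha, fun _ => this⟩
      · rw [if_neg ha] at this
        exact ⟨fun h' => absurd h' this, fun h' => absurd h' ha⟩
  rw [h2]
  refine MeasurableSet.iInter fun a => ?_
  by_cases ha : a ∈ s
  · rw [if_pos ha]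
    exact hF a
  · rw [if_neg ha]
    exact (hF a).compl

/-- the core of the argument on an abstract path space -/
theorem EHZ_core {Ω : Type} [MeasurableSpace Ω] (ν : Measure Ω) [SigmaFinite ν] {J : ℕ} (nc : ℕ) (I P : Ω → ENNReal)
    (x : Ω → Fin J → ℝ) (c K S : ENNReal) (hI : Measurable I) (hP : Measurable P) (hx : Measurable x)
    (hI2 : ∀ q, I q ^ 2 = I q) (hI1 : ∀ q, I q ≤ 1) (hS : ∫⁻ q, P q ∂ν ≤ S)
    (hK : ∀ q, P q ≠ 0 → ν {q' | P q' ≠ 0 ∧ {a : Fin J | 1 ≤ |x q a - x q' a|}.ncard < nc} ≤ K) :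
    ∫⁻ q, ∫⁻ q', (I q * P q) * (I q' * P q') * (und1 nc (x q) (x q') + c) ∂ν ∂ν ≤
      K * ∫⁻ q, I q * P q ^ 2 ∂ν + c * S ^ 2 := by
  set M : Ω → ENNReal := fun q => I q * P q with hM
  have hMm : Measurable M := hI.mul hP
  have hMP : ∀ q, M q ≠ 0 → P q ≠ 0 := fun q h h0 => h (by rw [hM]; simp only []; rw [h0, mul_zero])
  set Bs : Set (Ω × Ω) := {p : Ω × Ω | (P p.1 ≠ 0 ∧ P p.2 ≠ 0) ∧ {a : Fin J | 1 ≤ |x p.1 a - x p.2 a|}.ncard < nc} with hBs
  have hBsm : MeasurableSet Bs := by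
    have h1 : MeasurableSet {p : Ω × Ω | P p.1 ≠ 0} := (hP.comp measurable_fst) (measurableSet_singleton 0).compl
    have h2 : MeasurableSet {p : Ω × Ω | P p.2 ≠ 0} := (hP.comp measurable_snd) (measurableSet_singleton 0).compl
    have h3 : MeasurableSet {p : Ω × Ω | {a : Fin J | 1 ≤ |x p.1 a - x p.2 a|}.ncard < nc} := by
      apply EHZ_nm (fun p : Ω × Ω => {a : Fin J | 1 ≤ |x p.1 a - x p.2 a|})
      intro a
      have h4 : Measurable (fun p : Ω × Ω => |x p.1 a - x p.2 a|) := by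
        have h5 : Measurable (fun p : Ω × Ω => x p.1 a) := (measurable_pi_apply a).comp (hx.comp measurable_fst)
        have h6 : Measurable (fun p : Ω × Ω => x p.2 a) := (measurable_pi_apply a).comp (hx.comp measurable_snd)
        exact (h5.sub h6).abs
      exact measurableSet_le measurable_const h4
    exact (h1.inter h2).inter h3
  set B : Ω → Ω → ENNReal := fun q q' => Bs.indicator (fun _ => 1) (q, q') with hB
  have hBm : Measurable (fun p : Ω × Ω => B p.1 p.2) := measurable_const.indicator hBsm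
  have hB1 : ∀ q q', (q, q') ∈ Bs → B q q' = 1 := fun q q' h => indicator_of_mem h _
  have hB0 : ∀ q q', (q, q') ∉ Bs → B q q' = 0 := fun q q' h => indicator_of_notMem h _
  have hBsym : ∀ q q', B q q' = B q' q := by
    intro q q'
    have h1 : (q, q') ∈ Bs ↔ (q', q) ∈ Bs := by
      have h2 : {a : Fin J | 1 ≤ |x q a - x q' a|} = {a : Fin J | 1 ≤ |x q' a - x q a|} := by
        ext a
        show 1 ≤ |x q a - x q' a| ↔ 1 ≤ |x q' a - x q a|
        rw [abs_sub_comm]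
      constructor
      · rintro ⟨⟨h3, h4⟩, h5⟩
        exact ⟨⟨h4, h3⟩, by rw [h2] at h5; exact h5⟩
      · rintro ⟨⟨h3, h4⟩, h5⟩
        exact ⟨⟨h4, h3⟩, by rw [← h2] at h5; exact h5⟩
    by_cases h : (q, q') ∈ Bs
    · rw [hB1 _ _ h, hB1 _ _ (h1.mp h)]
    · rw [hB0 _ _ h, hB0 _ _ (fun h' => h (h1.mpr h'))]
  have hBq : ∀ q, Measurable (B q) := fun q => hBm.comp measurable_prodMk_left
  -- the pointwise bound
  have hpt : ∀ q q', M q * M q' * (und1 nc (x q) (x q') + c) ≤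
      2⁻¹ * (M q ^ 2 * B q q' + M q' ^ 2 * B q q') + c * (M q * M q') := by
    intro q q'
    rw [mul_add, mul_comm (M q * M q') c]
    refine add_le_add ?_ le_rfl
    by_cases hz : M q * M q' * und1 nc (x q) (x q') = 0
    · rw [hz]
      exact zero_le
    · have h1 : M q * M q' ≠ 0 := left_ne_zero_of_mul hz
      have h2 : und1 nc (x q) (x q') ≠ 0 := right_ne_zero_of_mul hz
      have h3 : {a : Fin J | 1 ≤ |x q a - x q' a|}.ncard < nc := by
        by_contra h4
        apply h2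
        unfold und1
        exact indicator_of_notMem (show (x q, x q') ∉ {p : (Fin J → ℝ) × (Fin J → ℝ) |
          {j : Fin J | 1 ≤ |p.1 j - p.2 j|}.ncard < nc} from h4) _
      have h5 : und1 nc (x q) (x q') = 1 := by
        unfold und1
        exact indicator_of_mem (show (x q, x q') ∈ {p : (Fin J → ℝ) × (Fin J → ℝ) |
          {j : Fin J | 1 ≤ |p.1 j - p.2 j|}.ncard < nc} from h3) _
      have h6 : (q, q') ∈ Bs := ⟨⟨hMP q (left_ne_zero_of_mul h1), hMP q' (right_ne_zero_of_mul h1)⟩, h3⟩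
      rw [h5, hB1 _ _ h6, mul_one, mul_one, mul_one]
      exact EHZ_amgm _ _
  set T : ENNReal := ∫⁻ q, ∫⁻ q', M q ^ 2 * B q q' ∂ν ∂ν with hT
  have hT' : ∫⁻ q, ∫⁻ q', M q' ^ 2 * B q q' ∂ν ∂ν = T := by
    have h1 : ∫⁻ q, ∫⁻ q', M q' ^ 2 * B q q' ∂ν ∂ν = ∫⁻ q', ∫⁻ q, M q' ^ 2 * B q q' ∂ν ∂ν := by
      apply lintegral_lintegral_swap (f := fun q q' => M q' ^ 2 * B q q')
      apply Measurable.aemeasurable
      exact ((hMm.comp measurable_snd).pow_const 2).mul hBm
    rw [h1, hT]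
    refine lintegral_congr fun q' => lintegral_congr fun q => ?_
    rw [hBsym]
  have hm1 : Measurable (fun p : Ω × Ω => M p.1 ^ 2 * B p.1 p.2) := ((hMm.comp measurable_fst).pow_const 2).mul hBm
  have hm2 : Measurable (fun p : Ω × Ω => M p.2 ^ 2 * B p.1 p.2) := ((hMm.comp measurable_snd).pow_const 2).mul hBm
  have hm1' : Measurable (fun q => ∫⁻ q', M q ^ 2 * B q q' ∂ν) := hm1.lintegral_prod_right'
  have hm2' : Measurable (fun q => ∫⁻ q', M q' ^ 2 * B q q' ∂ν) := hm2.lintegral_prod_right'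
  have hMS : ∫⁻ q, M q ∂ν ≤ S := by
    refine (lintegral_mono fun q => ?_).trans hS
    rw [hM]
    exact mul_le_of_le_one_left' (hI1 q)
  have hTK : T ≤ K * ∫⁻ q, I q * P q ^ 2 ∂ν := by
    have hIPm : Measurable (fun q => I q * P q ^ 2) := hI.mul (hP.pow_const 2)
    rw [hT, ← lintegral_const_mul _ hIPm]
    refine lintegral_mono fun q => ?_
    simp only []
    rw [lintegral_const_mul _ (hBq q)]
    have hM2 : M q ^ 2 = I q * P q ^ 2 := by
      rw [hM]
      simp only []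
      rw [mul_pow, hI2]
    rw [hM2, mul_comm]
    by_cases hz : I q * P q ^ 2 = 0
    · rw [hz, mul_zero, mul_zero]
    · have hP0 : P q ≠ 0 := by
        intro h0
        apply hz
        rw [h0]
        simp
      refine mul_le_mul' ?_ le_rfl
      refine le_trans ?_ (hK q hP0)
      have h1 : ∀ q', B q q' = {q' | P q' ≠ 0 ∧ {a : Fin J | 1 ≤ |x q a - x q' a|}.ncard < nc}.indicator (fun _ => 1) q' := by
        intro q'
        by_cases h : (q, q') ∈ Bs
        · rw [hB1 _ _ h, indicator_of_mem]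
          exact ⟨h.1.2, h.2⟩
        · rw [hB0 _ _ h, indicator_of_notMem]
          intro h'
          exact h ⟨⟨hP0, h'.1⟩, h'.2⟩
      have h2 : MeasurableSet {q' | P q' ≠ 0 ∧ {a : Fin J | 1 ≤ |x q a - x q' a|}.ncard < nc} := by
        have h3 : {q' | P q' ≠ 0 ∧ {a : Fin J | 1 ≤ |x q a - x q' a|}.ncard < nc} = Prod.mk q ⁻¹' Bs := by
          ext q'
          constructor
          · intro h'
            exact ⟨⟨hP0, h'.1⟩, h'.2⟩
          · intro h'
            exact ⟨h'.1.2, h'.2⟩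
        rw [h3]
        exact measurable_prodMk_left hBsm
      have h4 : ∫⁻ q', B q q' ∂ν = ν {q' | P q' ≠ 0 ∧ {a : Fin J | 1 ≤ |x q a - x q' a|}.ncard < nc} := by
        rw [lintegral_congr h1, lintegral_indicator h2]
        simp
      rw [h4]
  calc ∫⁻ q, ∫⁻ q', M q * M q' * (und1 nc (x q) (x q') + c) ∂ν ∂ν
      ≤ ∫⁻ q, ∫⁻ q', (2⁻¹ * (M q ^ 2 * B q q' + M q' ^ 2 * B q q') + c * (M q * M q')) ∂ν ∂ν :=
        lintegral_mono fun q => lintegral_mono fun q' => hpt q q'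
    _ = ∫⁻ q, (2⁻¹ * (∫⁻ q', M q ^ 2 * B q q' ∂ν + ∫⁻ q', M q' ^ 2 * B q q' ∂ν) + c * (M q * ∫⁻ q', M q' ∂ν)) ∂ν := by
        refine lintegral_congr fun q => ?_
        have e1 : Measurable (fun q' => M q ^ 2 * B q q') := (hBq q).const_mul _
        have e2 : Measurable (fun q' => M q' ^ 2 * B q q') := (hMm.pow_const 2).mul (hBq q)
        have e3 : Measurable (fun q' => M q ^ 2 * B q q' + M q' ^ 2 * B q q') := e1.add e2
        have e4 : Measurable (fun q' => 2⁻¹ * (M q ^ 2 * B q q' + M q' ^ 2 * B q q')) := e3.const_mul _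
        have e5 : Measurable (fun q' => M q * M q') := hMm.const_mul _
        rw [lintegral_add_left e4, lintegral_const_mul _ e3, lintegral_add_left e1,
          lintegral_const_mul _ e5, lintegral_const_mul _ hMm]
    _ = 2⁻¹ * (T + T) + c * ((∫⁻ q, M q ∂ν) * ∫⁻ q, M q ∂ν) := by
        have e3 : Measurable (fun q => ∫⁻ q', M q ^ 2 * B q q' ∂ν + ∫⁻ q', M q' ^ 2 * B q q' ∂ν) := hm1'.add hm2'
        have e4 : Measurable (fun q => 2⁻¹ * (∫⁻ q', M q ^ 2 * B q q' ∂ν + ∫⁻ q', M q' ^ 2 * B q q' ∂ν)) := e3.const_mul _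
        have e5 : Measurable (fun q => M q * ∫⁻ q', M q' ∂ν) := hMm.mul_const _
        rw [lintegral_add_left e4, lintegral_const_mul _ e3, lintegral_add_left hm1', hT',
          lintegral_const_mul _ e5, lintegral_mul_const _ hMm]
    _ ≤ K * ∫⁻ q, I q * P q ^ 2 ∂ν + c * S ^ 2 := by
        refine add_le_add ?_ ?_
        · rw [← two_mul, ← mul_assoc, ENNReal.inv_mul_cancel two_ne_zero ENNReal.ofNat_ne_top, one_mul]
          exact hTK
        · rw [pow_two]
          exact mul_le_mul' le_rfl (mul_le_mul' hMS hMS)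

/-- Tonelli for three variables -/
theorem EHZ_swap {X G : Type} [MeasurableSpace X] [MeasurableSpace G] (P : Measure X) (μ : Measure G) [SFinite P] [SFinite μ]
    (f : X → G → G → ENNReal) (hf : Measurable fun p : X × (G × G) => f p.1 p.2.1 p.2.2) :
    ∫⁻ ξ, ∫⁻ g, ∫⁻ h, f ξ g h ∂μ ∂μ ∂P = ∫⁻ g, ∫⁻ h, ∫⁻ ξ, f ξ g h ∂P ∂μ ∂μ := by
  have h1 : ∫⁻ ξ, ∫⁻ g, ∫⁻ h, f ξ g h ∂μ ∂μ ∂P = ∫⁻ g, ∫⁻ ξ, ∫⁻ h, f ξ g h ∂μ ∂P ∂μ := by
    apply lintegral_lintegral_swap (f := fun ξ g => ∫⁻ h, f ξ g h ∂μ)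
    apply Measurable.aemeasurable
    have h2 : Measurable fun q : (X × G) × G => f q.1.1 q.1.2 q.2 :=
      hf.comp (g := fun p : X × (G × G) => f p.1 p.2.1 p.2.2) (f := fun q : (X × G) × G => (q.1.1, (q.1.2, q.2)))
        ((measurable_fst.comp measurable_fst).prodMk ((measurable_snd.comp measurable_fst).prodMk measurable_snd))
    exact h2.lintegral_prod_right'
  rw [h1]
  refine lintegral_congr fun g => ?_
  apply lintegral_lintegral_swap (f := fun ξ h => f ξ g h)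
  apply Measurable.aemeasurable
  exact hf.comp (g := fun p : X × (G × G) => f p.1 p.2.1 p.2.2) (f := fun q : X × G => (q.1, (g, q.2)))
    (measurable_fst.prodMk (measurable_const.prodMk measurable_snd))

/-- the integral over the quotient of the periodisation -/
theorem EHZ_unf {Γ : Type} [Group Γ] {Y : Type} [MeasurableSpace Y] [MulAction Γ Y] {m : Measure Y} {D : Set Y} {d : Y → Y → ℝ}
    (hP : PS Γ Y m D d) (f : Y → ENNReal) (hf : Measurable f) : ∫⁻ y in D, ∑' γ : Γ, f (γ • y) ∂m = ∫⁻ y, f y ∂m := by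
  haveI := hP.cnt
  haveI : MeasurableConstSMul Γ Y := ⟨fun γ => (hP.act γ).measurable⟩
  haveI : SMulInvariantMeasure Γ Y m := ⟨fun γ s hs => (hP.act γ).measure_preimage hs.nullMeasurableSet⟩
  have hF : IsFundamentalDomain Γ D m := IsFundamentalDomain.mk' hP.meas.nullMeasurableSet hP.uniq
  have h1 : ∀ γ : Γ, Measurable (fun y => f (γ • y)) := fun γ => hf.comp (hP.act γ).measurable
  rw [lintegral_tsum fun γ => (h1 γ).aemeasurable, hF.lintegral_eq_tsum'' f]

theorem EHZ_inZ_sq {Y : Type} (A : Set Y) (l : List ℕ) (w : ℕ → Y) : inZ A l w ^ 2 = inZ A l w := by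
  unfold inZ
  by_cases hw : w ∈ {w : ℕ → Y | ∀ j ∈ mks l, w j ∈ A}
  · rw [indicator_of_mem hw, one_pow]
  · rw [indicator_of_notMem hw]
    simp

theorem EHZ_inZ_le {Y : Type} (A : Set Y) (l : List ℕ) (w : ℕ → Y) : inZ A l w ≤ 1 := by
  unfold inZ
  by_cases hw : w ∈ {w : ℕ → Y | ∀ j ∈ mks l, w j ∈ A}
  · rw [indicator_of_mem hw]
  · rw [indicator_of_notMem hw]
    exact zero_le_one

theorem EHZ_wg {Y : Type} (u : Y → Y → ℂ) (M : Y → Y → ENNReal) (A : Set Y) (l : List ℕ) (hum : ∀ x y, ‖u x y‖ₑ ≤ M x y) (w : ℕ → Y) :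
    ‖wgZ u A l w‖ₑ ≤ inZ A l w * wM M l w := by
  unfold wgZ inZ wM
  by_cases hw : w ∈ {w : ℕ → Y | ∀ j ∈ mks l, w j ∈ A}
  · rw [indicator_of_mem hw, indicator_of_mem hw, one_mul]
    have h1 : ‖∏ j ∈ Finset.range (nst l), u (w j) (w (j + 1))‖ₑ = ∏ j ∈ Finset.range (nst l), ‖u (w j) (w (j + 1))‖ₑ := by
      induction (nst l) with
      | zero => simp
      | succ n ih => rw [Finset.prod_range_succ, enorm_mul, ih, Finset.prod_range_succ]
    rw [h1]
    exact Finset.prod_le_prod' fun j _ => hum _ _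
  · rw [indicator_of_notMem hw, indicator_of_notMem hw]
    simp

theorem EHZ_inm {Y : Type} [MeasurableSpace Y] {A : Set Y} (hA : MeasurableSet A) (l : List ℕ) (n : ℕ) :
    Measurable (fun p : (Y × Y) × (Fin n → Y) => inZ A l (vz p.1.1 p.1.2 p.2)) := by
  have h2 : MeasurableSet {p : (Y × Y) × (Fin n → Y) | ∀ j ∈ mks l, vz p.1.1 p.1.2 p.2 j ∈ A} := by
    have h3 : {p : (Y × Y) × (Fin n → Y) | ∀ j ∈ mks l, vz p.1.1 p.1.2 p.2 j ∈ A} =
        ⋂ j ∈ (mks l).toFinset, (fun p => vz p.1.1 p.1.2 p.2 j) ⁻¹' A := by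
      ext p
      simp
    rw [h3]
    apply Finset.measurableSet_biInter
    intro j _
    exact (PIZ_vm n j) hA
  have h4 : (fun p : (Y × Y) × (Fin n → Y) => inZ A l (vz p.1.1 p.1.2 p.2)) =
      {p : (Y × Y) × (Fin n → Y) | ∀ j ∈ mks l, vz p.1.1 p.1.2 p.2 j ∈ A}.indicator (fun _ => (1 : ENNReal)) := by
    funext p
    unfold inZ
    by_cases hw : vz p.1.1 p.1.2 p.2 ∈ {w : ℕ → Y | ∀ j ∈ mks l, w j ∈ A}
    · have hp : p ∈ {p : (Y × Y) × (Fin n → Y) | ∀ j ∈ mks l, vz p.1.1 p.1.2 p.2 j ∈ A} := hw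
      rw [indicator_of_mem hw, indicator_of_mem hp]
    · have hp : p ∉ {p : (Y × Y) × (Fin n → Y) | ∀ j ∈ mks l, vz p.1.1 p.1.2 p.2 j ∈ A} := hw
      rw [indicator_of_notMem hw, indicator_of_notMem hp]
  rw [h4]
  exact measurable_const.indicator h2

theorem EHZ_wMm {Y : Type} [MeasurableSpace Y] {M : Y → Y → ENNReal} (hM : Measurable (Function.uncurry M)) (l : List ℕ) (n : ℕ) :
    Measurable (fun p : (Y × Y) × (Fin n → Y) => wM M l (vz p.1.1 p.1.2 p.2)) := by
  unfold wM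
  apply Finset.measurable_prod
  intro j _
  have h := hM.comp ((PIZ_vm (Y := Y) n j).prodMk (PIZ_vm n (j + 1)))
  simpa only [Function.comp_def, Function.uncurry] using h

theorem EHZ_proof (hPIZ : PIZ_stmt) (hQMB : RPQ.QMB_stmt) (hSNC : RPQ.SNC_stmt) : EHZ_stmt := by
  intro Γ _ Y _ _ m D d hP J nc θ u M A l K S hθ hu hMm hMi huM hMr hA hAi hl hS hsum hK
  letI : MeasurableSpace Γ := ⊤
  haveI : DiscreteMeasurableSpace Γ := ⟨fun _ => trivial⟩
  haveI := hP.cnt
  haveI := hP.sf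
  obtain ⟨hsO, hform, hmeas⟩ := hPIZ Γ Y m D d hP J θ u A l hθ hu hA hAi hl
  haveI := hsO
  haveI hsP : SigmaFinite (mZ m (nst l - 1)) := by
    unfold mZ
    infer_instance
  have hPJ : IsProbabilityMeasure (PJ J) := (hSNC J).1
  have hm : ∀ γ : Γ, Measurable (fun y : Y => γ • y) := fun γ => (hP.act γ).measurable
  have hθm : ∀ a, Measurable (θ a) := fun a => (hθ a).1
  set n : ℕ := nst l - 1 with hn
  set c : ENNReal := ENNReal.ofReal ((9 / 10) ^ nc) with hc
  obtain ⟨G, hG⟩ : ∃ G : Y → Y → ENNReal, G = fun x y => ∫⁻ v : Fin n → Y, inZ A l (vz x y v) * wM M l (vz x y v) ^ 2 ∂mZ m n := ⟨_, rfl⟩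
  have hGm : Measurable (fun p : Y × Y => G p.1 p.2) := by
    rw [hG]
    have h1 : Measurable (fun p : (Y × Y) × (Fin n → Y) => inZ A l (vz p.1.1 p.1.2 p.2) * wM M l (vz p.1.1 p.1.2 p.2) ^ 2) :=
      (EHZ_inm hA l n).mul ((EHZ_wMm hMm l n).pow_const 2)
    exact h1.lintegral_prod_right'
  have hGx : ∀ x, Measurable (G x) := fun x => hGm.comp measurable_prodMk_left
  -- fixed end points
  have hfix : ∀ x y : Y, ∫⁻ ξ, ‖perZ Γ (wdZ m (stZ (fun y => ∑ a, ξ a * θ a y) u) A l) x y‖ₑ ^ 2 ∂PJ J ≤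
      K * ∑' γ : Γ, G x (γ • y) + c * S ^ 2 := by
    intro x y
    have hsec : Measurable (fun q : Γ × (Fin n → Y) => (((x, y), q) : (Y × Y) × (Γ × (Fin n → Y)))) :=
      measurable_const.prodMk measurable_id
    have hIm : Measurable (fun q : OmZ Γ Y l => inZ A l (vz x (q.1 • y) q.2)) := by
      have h := ((EHZ_inm hA l n).comp (PIZ_phim (Y := Y) hP.cnt hm n)).comp hsec
      simpa only [PIZ_phi, Function.comp_def] using h
    have hPm : Measurable (fun q : OmZ Γ Y l => wM M l (vz x (q.1 • y) q.2)) := by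
      have h := ((EHZ_wMm hMm l n).comp (PIZ_phim (Y := Y) hP.cnt hm n)).comp hsec
      simpa only [PIZ_phi, Function.comp_def] using h
    have hwm : Measurable (fun q : OmZ Γ Y l => wgZ u A l (vz x (q.1 • y) q.2)) := by
      have h := (PIZ_Wm (n := n) (l := l) hP.cnt hm hu.meas hA).comp hsec
      simpa only [PIZ_vo, Function.comp_def] using h
    have hxm : Measurable (fun (q : OmZ Γ Y l) (a : Fin J) => phZ θ l (vz x (q.1 • y) q.2) a) := by
      apply measurable_pi_iff.mpr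
      intro a
      have h := (PIZ_Tm (n := n) (l := l) hP.cnt hm hθm a).comp hsec
      simpa only [PIZ_vo, Function.comp_def] using h
    have hPS : ∫⁻ q, wM M l (vz x (q.1 • y) q.2) ∂mOZ Γ m l ≤ S := by
      unfold mOZ
      rw [lintegral_prod _ hPm.aemeasurable, lintegral_count]
      exact hsum x y
    have hMS : ∫⁻ q, inZ A l (vz x (q.1 • y) q.2) * wM M l (vz x (q.1 • y) q.2) ∂mOZ Γ m l ≠ ⊤ := by
      refine ne_top_of_le_ne_top hS (le_trans (lintegral_mono fun q => ?_) hPS)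
      exact mul_le_of_le_one_left' (EHZ_inZ_le A l _)
    have hQ := (hQMB (OmZ Γ Y l) (mOZ Γ m l) J nc (fun q => wgZ u A l (vz x (q.1 • y) q.2))
      (fun q => inZ A l (vz x (q.1 • y) q.2) * wM M l (vz x (q.1 • y) q.2))
      (fun q a => phZ θ l (vz x (q.1 • y) q.2) a) hwm (hIm.mul hPm) hxm (fun q => EHZ_wg u M A l huM _) hMS).2
    have hL : ∫⁻ ξ, ‖perZ Γ (wdZ m (stZ (fun y => ∑ a, ξ a * θ a y) u) A l) x y‖ₑ ^ 2 ∂PJ J =
        ∫⁻ ξ, ‖∫ q, Complex.exp (((∑ a, ξ a * phZ θ l (vz x (q.1 • y) q.2) a : ℝ) : ℂ) * Complex.I) *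
          wgZ u A l (vz x (q.1 • y) q.2) ∂mOZ Γ m l‖ₑ ^ 2 ∂PJ J := by
      refine lintegral_congr fun ξ => ?_
      rw [hform ξ x y]
    rw [hL]
    refine hQ.trans ?_
    have hKq : ∀ q : OmZ Γ Y l, wM M l (vz x (q.1 • y) q.2) ≠ 0 →
        mOZ Γ m l {q' | wM M l (vz x (q'.1 • y) q'.2) ≠ 0 ∧
          {a : Fin J | 1 ≤ |phZ θ l (vz x (q.1 • y) q.2) a - phZ θ l (vz x (q'.1 • y) q'.2) a|}.ncard < nc} ≤ K := by
      intro q hq
      have h1 : MeasurableSet {q' : OmZ Γ Y l | wM M l (vz x (q'.1 • y) q'.2) ≠ 0 ∧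
          {a : Fin J | 1 ≤ |phZ θ l (vz x (q.1 • y) q.2) a - phZ θ l (vz x (q'.1 • y) q'.2) a|}.ncard < nc} := by
        have h2 : MeasurableSet {q' : OmZ Γ Y l | wM M l (vz x (q'.1 • y) q'.2) ≠ 0} := hPm (measurableSet_singleton 0).compl
        have h3 : MeasurableSet {q' : OmZ Γ Y l |
            {a : Fin J | 1 ≤ |phZ θ l (vz x (q.1 • y) q.2) a - phZ θ l (vz x (q'.1 • y) q'.2) a|}.ncard < nc} := by
          apply EHZ_nm (fun q' : OmZ Γ Y l => {a : Fin J | 1 ≤ |phZ θ l (vz x (q.1 • y) q.2) a - phZ θ l (vz x (q'.1 • y) q'.2) a|})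
          intro a
          have h4 : Measurable (fun q' : OmZ Γ Y l => phZ θ l (vz x (q'.1 • y) q'.2) a) := (measurable_pi_apply a).comp hxm
          exact measurableSet_le measurable_const (measurable_const.sub h4).abs
        exact h2.inter h3
      have h5 := hK x (q.1 • y) q.2 hq
      unfold mOZ
      rw [Measure.prod_apply h1, lintegral_count]
      refine le_trans (le_of_eq ?_) h5
      rw [← Equiv.tsum_eq (Equiv.mulRight q.1)]
      refine tsum_congr fun γ => ?_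
      simp only [Equiv.coe_mulRight, smul_smul]
      rfl
    refine (EHZ_core (mOZ Γ m l) nc (fun q => inZ A l (vz x (q.1 • y) q.2)) (fun q => wM M l (vz x (q.1 • y) q.2))
      (fun q a => phZ θ l (vz x (q.1 • y) q.2) a) c K S hIm hPm hxm (fun q => EHZ_inZ_sq A l _) (fun q => EHZ_inZ_le A l _) hPS hKq).trans ?_
    refine add_le_add (mul_le_mul' le_rfl (le_of_eq ?_)) le_rfl
    have hIPm : Measurable (fun q : OmZ Γ Y l => inZ A l (vz x (q.1 • y) q.2) * wM M l (vz x (q.1 • y) q.2) ^ 2) :=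
      hIm.mul (hPm.pow_const 2)
    unfold mOZ
    rw [lintegral_prod _ hIPm.aemeasurable, lintegral_count, hG]
  have hfm : Measurable fun p : (Fin J → ℝ) × (Y × Y) =>
      ‖perZ Γ (wdZ m (stZ (fun y => ∑ a, p.1 a * θ a y) u) A l) p.2.1 p.2.2‖ₑ ^ 2 := hmeas.enorm.pow_const 2
  have hsum' : ∀ x : Y, Measurable fun y : Y => ∑' γ : Γ, G x (γ • y) := by
    intro x
    exact Measurable.tsum fun γ => (hGx x).comp (hm γ)
  have hG2 : Measurable fun x : Y => ∫⁻ y, G x y ∂m := hGm.lintegral_prod_right'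
  rw [EHZ_swap (PJ J) (m.restrict D) (fun ξ x y => ‖perZ Γ (wdZ m (stZ (fun y => ∑ a, ξ a * θ a y) u) A l) x y‖ₑ ^ 2) hfm]
  calc ∫⁻ x in D, ∫⁻ y in D, ∫⁻ ξ, ‖perZ Γ (wdZ m (stZ (fun y => ∑ a, ξ a * θ a y) u) A l) x y‖ₑ ^ 2 ∂PJ J ∂m ∂m
      ≤ ∫⁻ x in D, ∫⁻ y in D, (K * ∑' γ : Γ, G x (γ • y) + c * S ^ 2) ∂m ∂m :=
        lintegral_mono fun x => lintegral_mono fun y => hfix x y
    _ = ∫⁻ x in D, (K * ∫⁻ y, G x y ∂m + c * S ^ 2 * m D) ∂m := by
        refine lintegral_congr fun x => ?_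
        rw [lintegral_add_left ((hsum' x).const_mul _), lintegral_const_mul _ (hsum' x), EHZ_unf hP _ (hGx x),
          setLIntegral_const]
    _ = K * (∫⁻ x in D, ∫⁻ y, G x y ∂m ∂m) + c * S ^ 2 * m D * m D := by
        rw [lintegral_add_left (hG2.const_mul _), lintegral_const_mul _ hG2, setLIntegral_const]
    _ = K * (∫⁻ x in D, ∫⁻ y, ∫⁻ v, inZ A l (vz x y v) * wM M l (vz x y v) ^ 2 ∂mZ m n ∂m ∂m) + c * S ^ 2 * m D ^ 2 := by
        rw [hG, mul_assoc (c * S ^ 2), ← pow_two]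

end Pool.Agent.VQ
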