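import Pool.Agent.helper11.VQ.Spec3a

/-!
# MP_07c750, project VQ, row PIZ (the kernel on the quotient as an integral over paths)
-/

set_option autoImplicit false

open scoped ENNReal ComplexConjugate
open MeasureTheory Filter Set

namespace Pool.Agent.VQ

open Pool.Agent.RPQ (IsOp IsMul OProj wrd PJ und1 nst mks)

theorem PIZ_last {Y : Type} {n : ℕ} (x y : Y) (v : Fin n → Y) : vz x y v (n + 1) = y := by
  show (if hj : n < n then v ⟨n, hj⟩ else y) = y
  rw [dif_neg (lt_irrefl n)]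

theorem PIZ_vm {Y : Type} [MeasurableSpace Y] (n j : ℕ) : Measurable fun p : (Y × Y) × (Fin n → Y) => vz p.1.1 p.1.2 p.2 j := by
  cases j with
  | zero => exact measurable_fst.comp measurable_fst
  | succ j =>
    by_cases hj : j < n
    · have h1 : (fun p : (Y × Y) × (Fin n → Y) => vz p.1.1 p.1.2 p.2 (j + 1)) = fun p => p.2 ⟨j, hj⟩ := by
        funext p
        show (if hj : j < n then p.2 ⟨j, hj⟩ else p.1.2) = _
        rw [dif_pos hj]
      rw [h1]
      exact (measurable_pi_apply _).comp measurable_snd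
    · have h1 : (fun p : (Y × Y) × (Fin n → Y) => vz p.1.1 p.1.2 p.2 (j + 1)) = fun p => p.1.2 := by
        funext p
        show (if hj : j < n then p.2 ⟨j, hj⟩ else p.1.2) = _
        rw [dif_neg hj]
      rw [h1]
      exact measurable_snd.comp measurable_fst

theorem PIZ_path {Y : Type} {d : Y → Y → ℝ} {T : ℝ} (dt : ∀ x y z, d x z ≤ d x y + d y z) (w : ℕ → Y) (N : ℕ)
    (hw : ∀ j < N, d (w j) (w (j + 1)) ≤ T) : ∀ j < N, d (w 0) (w (j + 1)) ≤ (j + 1) * T := by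
  intro j
  induction j with
  | zero =>
    intro h
    simpa using hw 0 h
  | succ j ih =>
    intro hj
    have h1 := ih (Nat.lt_of_succ_lt hj)
    have h2 := hw (j + 1) hj
    refine (dt _ (w (j + 1)) _).trans ?_
    push_cast at h1 ⊢
    linarith

theorem PIZ_wgt {Y : Type} {u : Y → Y → ℂ} {A : Set Y} {l : List ℕ} {w : ℕ → Y} (h : wgZ u A l w ≠ 0) :
    ∀ j < nst l, u (w j) (w (j + 1)) ≠ 0 := by
  intro j hj h0
  apply h
  unfold wgZ
  by_cases hw : w ∈ {w : ℕ → Y | ∀ j ∈ mks l, w j ∈ A}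
  · rw [indicator_of_mem hw]
    exact Finset.prod_eq_zero (Finset.mem_range.mpr hj) h0
  · rw [indicator_of_notMem hw]

theorem PIZ_wgtb {Y : Type} {u : Y → Y → ℂ} {A : Set Y} {l : List ℕ} {B : ℝ} (hB : ∀ x y, ‖u x y‖ ≤ B) (w : ℕ → Y) :
    ‖wgZ u A l w‖ ≤ B ^ nst l := by
  have hB0 : 0 ≤ B := (norm_nonneg _).trans (hB (w 0) (w 0))
  unfold wgZ
  by_cases hw : w ∈ {w : ℕ → Y | ∀ j ∈ mks l, w j ∈ A}
  · rw [indicator_of_mem hw, norm_prod]
    calc _ ≤ ∏ _j ∈ Finset.range (nst l), B := Finset.prod_le_prod (fun _ _ => norm_nonneg _) (fun _ _ => hB _ _)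
      _ = B ^ nst l := by rw [Finset.prod_const, Finset.card_range]
  · rw [indicator_of_notMem hw, norm_zero]
    positivity

/-- the weight is measurable in the end points and the vertices -/
theorem PIZ_wm {Y : Type} [MeasurableSpace Y] {u : Y → Y → ℂ} (hu : Measurable (Function.uncurry u)) {A : Set Y} (hA : MeasurableSet A)
    (l : List ℕ) (n : ℕ) : Measurable (fun p : (Y × Y) × (Fin n → Y) => wgZ u A l (vz p.1.1 p.1.2 p.2)) := by
  have h1 : Measurable (fun p : (Y × Y) × (Fin n → Y) =>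
      ∏ j ∈ Finset.range (nst l), u (vz p.1.1 p.1.2 p.2 j) (vz p.1.1 p.1.2 p.2 (j + 1))) := by
    apply Finset.measurable_prod
    intro j _
    have h := hu.comp ((PIZ_vm (Y := Y) n j).prodMk (PIZ_vm n (j + 1)))
    simpa only [Function.comp_def, Function.uncurry] using h
  have h2 : MeasurableSet {p : (Y × Y) × (Fin n → Y) | ∀ j ∈ mks l, vz p.1.1 p.1.2 p.2 j ∈ A} := by
    have h3 : {p : (Y × Y) × (Fin n → Y) | ∀ j ∈ mks l, vz p.1.1 p.1.2 p.2 j ∈ A} =
        ⋂ j ∈ (mks l).toFinset, (fun p => vz p.1.1 p.1.2 p.2 j) ⁻¹' A := by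
      ext p
      simp
    rw [h3]
    apply Finset.measurableSet_biInter
    intro j _
    exact (PIZ_vm n j) hA
  have h4 : (fun p : (Y × Y) × (Fin n → Y) => wgZ u A l (vz p.1.1 p.1.2 p.2)) =
      {p : (Y × Y) × (Fin n → Y) | ∀ j ∈ mks l, vz p.1.1 p.1.2 p.2 j ∈ A}.indicator
        (fun p => ∏ j ∈ Finset.range (nst l), u (vz p.1.1 p.1.2 p.2 j) (vz p.1.1 p.1.2 p.2 (j + 1))) := by
    funext p
    unfold wgZ
    by_cases hw : vz p.1.1 p.1.2 p.2 ∈ {w : ℕ → Y | ∀ j ∈ mks l, w j ∈ A}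
    · have hp : p ∈ {p : (Y × Y) × (Fin n → Y) | ∀ j ∈ mks l, vz p.1.1 p.1.2 p.2 j ∈ A} := hw
      rw [indicator_of_mem hw, indicator_of_mem hp]
    · have hp : p ∉ {p : (Y × Y) × (Fin n → Y) | ∀ j ∈ mks l, vz p.1.1 p.1.2 p.2 j ∈ A} := hw
      rw [indicator_of_notMem hw, indicator_of_notMem hp]
  rw [h4]
  exact h1.indicator h2

section
variable {Γ : Type} [Group Γ] [MeasurableSpace Γ] [DiscreteMeasurableSpace Γ] {Y : Type} [MeasurableSpace Y] [MulAction Γ Y]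

/-- end points and an element of the path space -/
def PIZ_phi (Γ : Type) [Group Γ] {Y : Type} [MulAction Γ Y] (n : ℕ) (p : (Y × Y) × (Γ × (Fin n → Y))) :
    (Y × Y) × (Fin n → Y) := ((p.1.1, p.2.1 • p.1.2), p.2.2)

theorem PIZ_sm (hc : Countable Γ) (hm : ∀ γ : Γ, Measurable (fun y : Y => γ • y)) :
    Measurable (fun p : Y × Γ => p.2 • p.1) := by
  haveI := hc
  exact measurable_from_prod_countable_left fun γ => hm γ

theorem PIZ_phim (hc : Countable Γ) (hm : ∀ γ : Γ, Measurable (fun y : Y => γ • y)) (n : ℕ) : Measurable (PIZ_phi (Y := Y) Γ n) := by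
  unfold PIZ_phi
  have h2 : Measurable (fun p : (Y × Y) × (Γ × (Fin n → Y)) => p.2.1 • p.1.2) := by
    have h := (PIZ_sm hc hm).comp ((measurable_snd.comp measurable_fst : Measurable (fun p : (Y × Y) × (Γ × (Fin n → Y)) => p.1.2)).prodMk
      (measurable_fst.comp measurable_snd : Measurable (fun p : (Y × Y) × (Γ × (Fin n → Y)) => p.2.1)))
    simpa only [Function.comp_def] using h
  exact ((measurable_fst.comp measurable_fst).prodMk h2).prodMk (measurable_snd.comp measurable_snd)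

theorem PIZ_box {m : Measure Y} [SigmaFinite m] {d : Y → Y → ℝ} (dm : Measurable (Function.uncurry d))
    (vol : ∀ T : ℝ, ∃ B : ℝ, ∀ x, m {y | d x y ≤ T} ≤ ENNReal.ofReal B) (x : Y) (M : ℝ) (n : ℕ) :
    mZ m n {v : Fin n → Y | ∀ i, d x (v i) ≤ M} < ⊤ := by
  obtain ⟨B, hB⟩ := vol M
  have h1 : {v : Fin n → Y | ∀ i, d x (v i) ≤ M} = Set.pi Set.univ (fun _ : Fin n => {p : Y | d x p ≤ M}) := by
    ext v
    simp [Set.mem_pi]
  rw [h1]
  unfold mZ
  rw [Measure.pi_pi]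
  apply ENNReal.prod_lt_top
  intro i _
  exact (hB x).trans_lt ENNReal.ofReal_lt_top

/-- the path of an element of the path space -/
def PIZ_vo {n : ℕ} (x y : Y) (q : Γ × (Fin n → Y)) : ℕ → Y := vz x (q.1 • y) q.2

/-- the integrand -/
noncomputable def PIZ_E {n J : ℕ} (θ : Fin J → Y → ℝ) (u : Y → Y → ℂ) (A : Set Y)
    (l : List ℕ) (ξ : Fin J → ℝ) (x y : Y) (q : Γ × (Fin n → Y)) : ℂ :=
  Complex.exp (((∑ a, ξ a * phZ θ l (PIZ_vo x y q) a : ℝ) : ℂ) * Complex.I) * wgZ u A l (PIZ_vo x y q)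

variable {J : ℕ} {θ : Fin J → Y → ℝ} {u : Y → Y → ℂ} {A : Set Y} {l : List ℕ} {n : ℕ}

theorem PIZ_Wm (hc : Countable Γ) (hm : ∀ γ : Γ, Measurable (fun y : Y => γ • y)) (hu : Measurable (Function.uncurry u)) (hA : MeasurableSet A) :
    Measurable (fun p : (Y × Y) × (Γ × (Fin n → Y)) => wgZ u A l (PIZ_vo p.1.1 p.1.2 p.2)) := by
  have h := (PIZ_wm hu hA l n).comp (PIZ_phim (Y := Y) hc hm n)
  simpa only [PIZ_phi, PIZ_vo, Function.comp_def] using h

theorem PIZ_Tm (hc : Countable Γ) (hm : ∀ γ : Γ, Measurable (fun y : Y => γ • y)) (hθ : ∀ a, Measurable (θ a)) (a : Fin J) :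
    Measurable (fun p : (Y × Y) × (Γ × (Fin n → Y)) => phZ θ l (PIZ_vo p.1.1 p.1.2 p.2) a) := by
  unfold phZ
  apply Finset.measurable_sum
  intro j _
  have h1 := ((hθ a).comp (PIZ_vm (Y := Y) n j)).comp (PIZ_phim (Y := Y) hc hm n)
  simpa only [PIZ_phi, PIZ_vo, Function.comp_def] using h1

theorem PIZ_Em (hc : Countable Γ) (hm : ∀ γ : Γ, Measurable (fun y : Y => γ • y)) (hθ : ∀ a, Measurable (θ a))
    (hu : Measurable (Function.uncurry u)) (hA : MeasurableSet A) :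
    Measurable (fun p : ((Fin J → ℝ) × (Y × Y)) × (Γ × (Fin n → Y)) => PIZ_E θ u A l p.1.1 p.1.2.1 p.1.2.2 p.2) := by
  have hr : Measurable (fun p : ((Fin J → ℝ) × (Y × Y)) × (Γ × (Fin n → Y)) => ((p.1.2, p.2) : (Y × Y) × (Γ × (Fin n → Y)))) :=
    (measurable_snd.comp measurable_fst).prodMk measurable_snd
  have h1 : Measurable (fun p : ((Fin J → ℝ) × (Y × Y)) × (Γ × (Fin n → Y)) =>
      ∑ a, p.1.1 a * phZ θ l (PIZ_vo p.1.2.1 p.1.2.2 p.2) a) := by
    apply Finset.measurable_sum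
    intro j _
    have h2 : Measurable (fun p : ((Fin J → ℝ) × (Y × Y)) × (Γ × (Fin n → Y)) => p.1.1 j) :=
      (measurable_pi_apply j).comp (measurable_fst.comp measurable_fst)
    have h4 : Measurable (fun p : ((Fin J → ℝ) × (Y × Y)) × (Γ × (Fin n → Y)) => phZ θ l (PIZ_vo p.1.2.1 p.1.2.2 p.2) j) := by
      have h5 := (PIZ_Tm (n := n) (l := l) hc hm hθ j).comp hr
      simpa only [Function.comp_def] using h5
    exact h2.mul h4
  have h3 : Measurable (fun x : ℝ => Complex.exp (((x : ℝ) : ℂ) * Complex.I)) :=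
    (Complex.continuous_exp.comp (Complex.continuous_ofReal.mul continuous_const)).measurable
  have h6 : Measurable (fun p : ((Fin J → ℝ) × (Y × Y)) × (Γ × (Fin n → Y)) =>
      Complex.exp (((∑ a, p.1.1 a * phZ θ l (PIZ_vo p.1.2.1 p.1.2.2 p.2) a : ℝ) : ℂ) * Complex.I)) := by
    have h7 := h3.comp h1
    simpa only [Function.comp_def] using h7
  have h8 : Measurable (fun p : ((Fin J → ℝ) × (Y × Y)) × (Γ × (Fin n → Y)) => wgZ u A l (PIZ_vo p.1.2.1 p.1.2.2 p.2)) := by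
    have h9 := (PIZ_Wm (n := n) (l := l) hc hm hu hA).comp hr
    simpa only [Function.comp_def] using h9
  unfold PIZ_E
  exact h6.mul h8

theorem PIZ_Eq (hc : Countable Γ) (hm : ∀ γ : Γ, Measurable (fun y : Y => γ • y)) (hθ : ∀ a, Measurable (θ a))
    (hu : Measurable (Function.uncurry u)) (hA : MeasurableSet A) (ξ : Fin J → ℝ) (x y : Y) :
    Measurable (fun q : Γ × (Fin n → Y) => PIZ_E θ u A l ξ x y q) := by
  have h1 : Measurable (fun q : Γ × (Fin n → Y) => (((ξ, (x, y)), q) : ((Fin J → ℝ) × (Y × Y)) × (Γ × (Fin n → Y)))) :=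
    measurable_const.prodMk measurable_id
  have h2 := (PIZ_Em (n := n) (l := l) hc hm hθ hu hA).comp h1
  simpa only [Function.comp_def] using h2

theorem PIZ_Eb {B : ℝ} (hB : ∀ x y, ‖u x y‖ ≤ B) (ξ : Fin J → ℝ) (x y : Y) (q : Γ × (Fin n → Y)) :
    ‖PIZ_E θ u A l ξ x y q‖ ≤ B ^ nst l := by
  unfold PIZ_E
  rw [norm_mul, Complex.norm_exp_ofReal_mul_I, one_mul]
  exact PIZ_wgtb hB _

theorem PIZ_ws {d : Y → Y → ℝ} {T : ℝ} (hT0 : 0 ≤ T) (dt : ∀ x y z, d x z ≤ d x y + d y z) (hn : n + 1 = nst l)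
    (x y : Y) (v : Fin n → Y) (hw : ∀ j < nst l, d (vz x y v j) (vz x y v (j + 1)) ≤ T) :
    d x y ≤ nst l * T ∧ ∀ i, d x (v i) ≤ nst l * T := by
  have h2 := PIZ_path dt (vz x y v) (nst l) hw
  have h0 : vz x y v 0 = x := rfl
  rw [h0] at h2
  refine ⟨?_, fun i => ?_⟩
  · have h3 := h2 n (by omega)
    rw [PIZ_last] at h3
    have e : ((n : ℝ) + 1) = (nst l : ℝ) := by exact_mod_cast hn
    rwa [e] at h3
  · have hi : (i : ℕ) + 1 ≤ nst l := by
      have := i.2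
      omega
    have h3 := h2 i (by omega)
    have h4 : vz x y v (i + 1) = v i := by
      show (if hj : (i : ℕ) < n then v ⟨i, hj⟩ else y) = v i
      rw [dif_pos i.2]
    rw [h4] at h3
    refine h3.trans ?_
    exact mul_le_mul_of_nonneg_right (by exact_mod_cast hi) hT0

theorem PIZ_Es {d : Y → Y → ℝ} {T : ℝ} (hT0 : 0 ≤ T) (dt : ∀ x y z, d x z ≤ d x y + d y z) (hn : n + 1 = nst l)
    (hu : ∀ x y, u x y ≠ 0 → d x y ≤ T) (ξ : Fin J → ℝ) (x y : Y) (q : Γ × (Fin n → Y)) (hE : PIZ_E θ u A l ξ x y q ≠ 0) :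
    d x (q.1 • y) ≤ nst l * T ∧ ∀ i, d x (q.2 i) ≤ nst l * T := by
  have h1 := PIZ_wgt (right_ne_zero_of_mul hE)
  exact PIZ_ws hT0 dt hn x (q.1 • y) q.2 fun j hj => hu _ _ (h1 j hj)

theorem PIZ_int {m : Measure Y} [SigmaFinite m] {D : Set Y} {d : Y → Y → ℝ} (hP : PS Γ Y m D d) (hn : n + 1 = nst l)
    (hθ : ∀ a, Measurable (θ a)) (hu : KZ Γ d u) (hA : MeasurableSet A) (ξ : Fin J → ℝ) (x y : Y) :
    ∃ S : Finset Γ, (∀ γ, γ ∉ S → ∀ v : Fin n → Y, PIZ_E θ u A l ξ x y (γ, v) = 0) ∧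
      Integrable (fun q : Γ × (Fin n → Y) => PIZ_E θ u A l ξ x y q) ((Measure.count : Measure Γ).prod (mZ m n)) := by
  haveI := hP.cnt
  haveI hsP : SigmaFinite (mZ m n) := by
    unfold mZ
    infer_instance
  have hm : ∀ γ : Γ, Measurable (fun y : Y => γ • y) := fun γ => (hP.act γ).measurable
  obtain ⟨B, hB⟩ := hu.bdd
  obtain ⟨T, hT⟩ := hu.range
  have hT' : ∀ x y, u x y ≠ 0 → d x y ≤ |T| := fun x y h => (hT x y h).trans (le_abs_self T)
  obtain ⟨K, hK⟩ := hP.fc (nst l * |T|)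
  have hfin := (hK x y).1
  have hEs := fun (q : Γ × (Fin n → Y)) (hE : PIZ_E θ u A l ξ x y q ≠ 0) =>
    PIZ_Es (abs_nonneg T) hP.dt hn hT' ξ x y q hE
  refine ⟨hfin.toFinset, fun γ hγ v => ?_, ?_⟩
  · by_contra h0
    apply hγ
    rw [Set.Finite.mem_toFinset]
    exact (hEs (γ, v) h0).1
  · have hbox := PIZ_box hP.dm hP.vol x (nst l * |T|) n
    have hct : (Measure.count : Measure Γ) {γ : Γ | d x (γ • y) ≤ nst l * |T|} ≠ ⊤ :=
      (Measure.count_apply_lt_top.mpr hfin).ne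
    have h1 : IntegrableOn (fun q : Γ × (Fin n → Y) => PIZ_E θ u A l ξ x y q)
        ({γ : Γ | d x (γ • y) ≤ nst l * |T|} ×ˢ {v : Fin n → Y | ∀ i, d x (v i) ≤ nst l * |T|}) ((Measure.count : Measure Γ).prod (mZ m n)) := by
      apply Measure.integrableOn_of_bounded (M := B ^ nst l)
      · rw [Measure.prod_prod]
        exact ENNReal.mul_ne_top hct hbox.ne
      · exact (PIZ_Eq hP.cnt hm hθ hu.meas hA ξ x y).aestronglyMeasurable
      · exact Eventually.of_forall (PIZ_Eb hB ξ x y)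
    apply h1.integrable_of_forall_notMem_eq_zero
    intro q hq
    by_contra h0
    exact hq ⟨(hEs q h0).1, (hEs q h0).2⟩

end

theorem PIZ_nst {l : List ℕ} (hl : l ≠ []) : nst l - 1 + 1 = nst l := by
  obtain ⟨a, l', rfl⟩ := List.exists_cons_of_ne_nil hl
  unfold nst
  simp only [List.map_cons, List.sum_cons]
  omega

theorem PIZ_proof (hWKZ : WKZ_stmt) : PIZ_stmt := by
  intro Γ _ _ _ Y _ _ m D d hP J θ u A l hθ hu hA hAi hl
  haveI := hP.cnt
  haveI := hP.sf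
  haveI hsP : SigmaFinite (mZ m (nst l - 1)) := by
    unfold mZ
    infer_instance
  haveI hsO : SigmaFinite (mOZ Γ m l) := by
    unfold mOZ
    infer_instance
  have hm : ∀ γ : Γ, Measurable (fun y : Y => γ • y) := fun γ => (hP.act γ).measurable
  have hθm : ∀ a, Measurable (θ a) := fun a => (hθ a).1
  have hnst := PIZ_nst hl
  have hform : ∀ (ξ : Fin J → ℝ) (x y : Y), perZ Γ (wdZ m (stZ (fun y => ∑ a, ξ a * θ a y) u) A l) x y =
      ∫ q, PIZ_E θ u A l ξ x y q ∂((Measure.count : Measure Γ).prod (mZ m (nst l - 1))) := by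
    intro ξ x y
    obtain ⟨S, hS, hint⟩ := PIZ_int hP hnst hθm hu hA ξ x y
    have h1 : ∫ q, PIZ_E θ u A l ξ x y q ∂((Measure.count : Measure Γ).prod (mZ m (nst l - 1))) =
        ∑' γ : Γ, ∫ v, PIZ_E θ u A l ξ x y (γ, v) ∂mZ m (nst l - 1) := by
      rw [integral_prod _ hint, integral_countable' hint.integral_prod_left]
      simp only [Measure.real, Measure.count_singleton, ENNReal.toReal_one, one_smul]
    rw [h1]
    have hξm : Measurable (fun y : Y => ∑ a, ξ a * θ a y) :=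
      Finset.measurable_sum _ fun a _ => (hθm a).const_mul (ξ a)
    have hξi : ∀ (γ : Γ) (y : Y), (fun y : Y => ∑ a, ξ a * θ a y) (γ • y) = (fun y : Y => ∑ a, ξ a * θ a y) y := by
      intro γ y
      simp only [(hθ _).2]
    have h3 : ∀ γ : Γ, ∫ v, PIZ_E θ u A l ξ x y (γ, v) ∂mZ m (nst l - 1) =
        wdZ m (stZ (fun y => ∑ a, ξ a * θ a y) u) A l x (γ • y) := by
      intro γ
      rw [(hWKZ Γ Y m D d hP (fun y => ∑ a, ξ a * θ a y) u A l hξm hξi hu hA hAi hl x (γ • y)).2]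
      apply integral_congr_ae
      refine Eventually.of_forall fun v => ?_
      simp only [PIZ_E, PIZ_vo, phZ]
      have e : ∑ a, ξ a * ∑ j ∈ Finset.range (nst l), θ a (vz x (γ • y) v j) =
          ∑ j ∈ Finset.range (nst l), ∑ a, ξ a * θ a (vz x (γ • y) v j) := by
        rw [Finset.sum_comm]
        exact Finset.sum_congr rfl fun a _ => Finset.mul_sum _ _ _
      rw [e]
    have h4 : ∀ γ : Γ, γ ∉ S → ∫ v, PIZ_E θ u A l ξ x y (γ, v) ∂mZ m (nst l - 1) = 0 := by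
      intro γ hγ
      simp only [hS γ hγ, integral_zero]
    rw [tsum_eq_sum (s := S) h4]
    unfold perZ
    rw [finsum_eq_sum_of_support_subset (s := S)]
    · exact Finset.sum_congr rfl fun γ _ => (h3 γ).symm
    · intro γ hγ
      by_contra h0
      apply hγ
      show wdZ m (stZ (fun y => ∑ a, ξ a * θ a y) u) A l x (γ • y) = 0
      rw [← h3 γ]
      exact h4 γ (by simpa using h0)
  refine ⟨hsO, hform, ?_⟩
  have h1 : (fun p : (Fin J → ℝ) × (Y × Y) => perZ Γ (wdZ m (stZ (fun y => ∑ a, p.1 a * θ a y) u) A l) p.2.1 p.2.2) =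
      fun p => ∫ q, PIZ_E θ u A l p.1 p.2.1 p.2.2 q ∂((Measure.count : Measure Γ).prod (mZ m (nst l - 1))) := by
    funext p
    exact hform p.1 p.2.1 p.2.2
  rw [h1]
  have h2 := (PIZ_Em (n := nst l - 1) (l := l) hP.cnt hm hθm hu.meas hA).stronglyMeasurable.integral_prod_right'
    (ν := (Measure.count : Measure Γ).prod (mZ m (nst l - 1)))
  exact h2.measurable

end Pool.Agent.VQ
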