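import Pool.Agent.helper65.VQ.EDDa

/-!
# Project VQ (MP_07c750_an), row EDD: the coefficients of the evolved packets as functions of the time
-/

set_option autoImplicit false

open scoped MatrixGroups ContDiff Topology UpperHalfPlane ComplexConjugate ENNReal
open UpperHalfPlane MeasureTheory Filter Set

namespace Pool.Agent.VQ

open Pool.Agent.RS
open Pool.Agent.RPQ (CEig mean VV IsOp)

noncomputable section

theorem EDD_abs2 (U : ℍ → ℝ) (R : ℝ) (φ : ℍ → ℂ) (Ψ E : ℝ → ℍ → ℂ) (hU : Continuous U) (hφ : Continuous φ)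
    (hφ2 : QU.CD 2 φ) (hΨ : Continuous fun y : ℝ × ℍ => Ψ y.1 y.2)
    (hL : Continuous fun y : ℝ × ℍ => QU.lap (Ψ y.1) y.2) (hE : Continuous fun y : ℝ × ℍ => E y.1 y.2)
    (hd : ∀ s z, HasDerivAt (fun r => Ψ r z) (-(Complex.I * Hop U R (Ψ s) z) - Complex.I * E s z) s)
    (h2 : ∀ s, QU.CD 2 (Ψ s)) (z0 : ℍ) (hs : ∀ s z, Ψ s z ≠ 0 → dist z z0 ≤ 2 + 6 / 5 * |s|)
    (hsE : ∀ s z, E s z ≠ 0 → dist z z0 ≤ 2 + 6 / 5 * |s|) (t : ℝ) :
    HasDerivAt (fun s => ∫ z : ℍ, φ z * conj (Ψ s z))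
      (Complex.I * (∫ z : ℍ, Hop U R φ z * conj (Ψ t z)) + Complex.I * ∫ z : ℍ, φ z * conj (E t z)) t := by
  have hH : Continuous fun y : ℝ × ℍ => Hop U R (Ψ y.1) y.2 := by
    have hUc : Continuous fun y : ℝ × ℍ => ((R ^ 2 * U y.2 : ℝ) : ℂ) :=
      Complex.continuous_ofReal.comp (continuous_const.mul (hU.comp continuous_snd))
    have h1 : Continuous fun y : ℝ × ℍ => (((2 * R)⁻¹ : ℝ) : ℂ) * (QU.lap (Ψ y.1) y.2 -
        ((R ^ 2 * U y.2 : ℝ) : ℂ) * Ψ y.1 y.2) := continuous_const.mul (hL.sub (hUc.mul hΨ))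
    have h2 : (fun y : ℝ × ℍ => Hop U R (Ψ y.1) y.2) = fun y : ℝ × ℍ => (((2 * R)⁻¹ : ℝ) : ℂ) * (QU.lap (Ψ y.1) y.2 -
        ((R ^ 2 * U y.2 : ℝ) : ℂ) * Ψ y.1 y.2) := by
      funext y
      unfold Hop
      rfl
    rw [h2]
    exact h1
  have hG : Continuous fun y : ℝ × ℍ => -(Complex.I * Hop U R (Ψ y.1) y.2) - Complex.I * E y.1 y.2 :=
    (continuous_const.mul hH).neg.sub (continuous_const.mul hE)
  have hres := EDD_abs φ Ψ (fun s z => -(Complex.I * Hop U R (Ψ s) z) - Complex.I * E s z) hφ hΨ hG hd z0 hs t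
  have hψc : Continuous (Ψ t) := hΨ.comp (continuous_const.prodMk continuous_id)
  have hEc : Continuous (E t) := hE.comp (continuous_const.prodMk continuous_id)
  have hHc : Continuous (Hop U R (Ψ t)) := by
    have hi : Continuous fun z : ℍ => ((t, z) : ℝ × ℍ) := continuous_const.prodMk continuous_id
    have h1 := hH.comp hi
    have h3 : ((fun y : ℝ × ℍ => Hop U R (Ψ y.1) y.2) ∘ fun z : ℍ => ((t, z) : ℝ × ℍ)) = Hop U R (Ψ t) := by
      funext z
      rw [Function.comp_apply]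
    rw [h3] at h1
    exact h1
  have hψs : HasCompactSupport (Ψ t) := by
    refine HasCompactSupport.intro (isCompact_closedBall z0 (2 + 6 / 5 * |t|)) fun z hz => ?_
    by_contra hne
    exact hz (Metric.mem_closedBall.2 (hs t z hne))
  have hEs : HasCompactSupport (E t) := by
    refine HasCompactSupport.intro (isCompact_closedBall z0 (2 + 6 / 5 * |t|)) fun z hz => ?_
    by_contra hne
    exact hz (Metric.mem_closedBall.2 (hsE t z hne))
  have hψ2 := h2 t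
  have hHs : HasCompactSupport (Hop U R (Ψ t)) := by
    refine HasCompactSupport.intro hψs.isCompact fun z hz => ?_
    unfold Hop
    rw [EDD_lapz _ hψ2 z hz, image_eq_zero_of_notMem_tsupport hz]
    simp
  have gen : ∀ f : ℍ → ℂ, Continuous f → HasCompactSupport f → Integrable fun z : ℍ => φ z * conj (f z) := by
    intro f hf hfs
    have hc : Continuous fun z : ℍ => conj (f z) := Complex.continuous_conj.comp hf
    have hcs : HasCompactSupport fun z : ℍ => conj (f z) := hfs.comp_left (map_zero _)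
    exact Continuous.integrable_of_hasCompactSupport (hφ.mul hc) hcs.mul_left
  have j1 := gen (Hop U R (Ψ t)) hHc hHs
  have j2 := gen (E t) hEc hEs
  have hval : (∫ z : ℍ, φ z * conj (-(Complex.I * Hop U R (Ψ t) z) - Complex.I * E t z)) =
      Complex.I * (∫ z : ℍ, Hop U R φ z * conj (Ψ t z)) + Complex.I * ∫ z : ℍ, φ z * conj (E t z) := by
    rw [← EDD_hop U R φ (Ψ t) hU hφ hψc hψs hφ2 hψ2, ← integral_const_mul, ← integral_const_mul,
      ← integral_add (j1.const_mul _) (j2.const_mul _)]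
    refine integral_congr_ae (Eventually.of_forall (fun z => ?_))
    change φ z * conj (-(Complex.I * Hop U R (Ψ t) z) - Complex.I * E t z) =
      Complex.I * (φ z * conj (Hop U R (Ψ t) z)) + Complex.I * (φ z * conj (E t z))
    rw [map_sub, map_neg, map_mul, map_mul, Complex.conj_I]
    ring
  rw [hval] at hres
  exact hres

theorem EDD_deriv (hVRM : VRM_stmt) (hVPR : VPR_stmt) (hVCD : VCD_stmt) (hHFA : HFA_stmt)
    {ch : ℝ → ℝ} {ζ ζ1 R δ : ℝ} {Γ : Subgroup SL(2, ℝ)} {B : ℕ → ℝ} {D : Dyn} (hch : CH ch) (hζ1 : 0 < ζ1)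
    (hζ8 : ζ1 ≤ 1 / 8) (hR : 2 ≤ R) (hD : OKD Γ δ B D) (hδ : δ ≤ 1 / 10) (p : SL(2, ℝ) × ℝ) (hp : |p.2| ≤ 1 / 8)
    (φ : ℍ → ℂ) (hφ : Continuous φ) (hφ2 : QU.CD 2 φ) (t : ℝ) :
    HasDerivAt (fun s => ∫ z : ℍ, φ z * conj (psi D ch ζ ζ1 R s p z))
      (Complex.I * (∫ z : ℍ, Hop D.U R φ z * conj (psi D ch ζ ζ1 R t p z)) +
        Complex.I * ∫ z : ℍ, φ z * conj (pF D t (Er D ch ζ ζ1 R t) p z)) t := by
  have hR1 : 1 ≤ R := by linarith
  have hU : Continuous D.U := hD.pot.inv.1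
  obtain ⟨c1, c2, -, -, -, c6, -⟩ := hVPR ch ζ ζ1 R δ Γ B D hch hζ1 hζ8 hR hD hδ
  have hvrm := fun s => (hVRM ch ζ ζ1 R δ Γ B D p s hch hζ1 hζ8 hR hD hδ hp).2
  have emb : Continuous fun y : ℝ × ℍ => (((p, y.1), y.2) : ((SL(2, ℝ) × ℝ) × ℝ) × ℍ) := by fun_prop
  have hm : MapsTo (fun y : ℝ × ℍ => (((p, y.1), y.2) : ((SL(2, ℝ) × ℝ) × ℝ) × ℍ)) univ {x | |x.1.1.2| ≤ 1 / 8} :=
    fun y _ => hp
  have d1 : Continuous fun y : ℝ × ℍ => psi D ch ζ ζ1 R y.1 p y.2 := by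
    have h := c1.comp emb.continuousOn hm
    rw [continuousOn_univ] at h
    exact h
  have d2 : Continuous fun y : ℝ × ℍ => QU.lap (psi D ch ζ ζ1 R y.1 p) y.2 := by
    have h := c2.comp emb.continuousOn hm
    rw [continuousOn_univ] at h
    exact h
  have d3 : Continuous fun y : ℝ × ℍ => pF D y.1 (Er D ch ζ ζ1 R y.1) p y.2 := by
    have h := (EDD_pFc hVCD hD (fun s => Er D ch ζ ζ1 R s) c6).comp emb.continuousOn hm
    rw [continuousOn_univ] at h
    exact h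
  have s1 : ∀ s z, psi D ch ζ ζ1 R s p z ≠ 0 → dist z (p.1 • I : ℍ) ≤ 2 + 6 / 5 * |s| := by
    intro s z hne
    apply EDD_dist hVCD hHFA hD hδ hp
    by_contra h
    push Not at h
    exact hne (EDD_pv0 hch D hR1 (by linarith) s p _ h)
  have s2 : ∀ s z, pF D s (Er D ch ζ ζ1 R s) p z ≠ 0 → dist z (p.1 • I : ℍ) ≤ 2 + 6 / 5 * |s| := by
    intro s z hne
    apply EDD_dist hVCD hHFA hD hδ hp
    by_contra h
    push Not at h
    exact hne (EDD_Er0 hch D hR1 (by linarith) s p _ h)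
  exact EDD_abs2 D.U R φ (fun s => psi D ch ζ ζ1 R s p) (fun s => pF D s (Er D ch ζ ζ1 R s) p) hU hφ hφ2 d1 d2 d3
    (fun s z => (hvrm s z).2) (fun s => (hvrm s I).1) (p.1 • I) s1 s2 t

theorem EDD_proof (hVRM : VRM_stmt) (hVPR : VPR_stmt) (hVCD : VCD_stmt) (hHFA : HFA_stmt) : EDD_stmt := by
  refine ⟨16, by norm_num, ?_⟩
  intro ch B A hch hA
  obtain ⟨hz, hzz, hz12, -, hz2, -, -⟩ := Adm_small hA (by norm_num)
  have hζ1 : 0 < A.z1 := lt_of_lt_of_le hz hzz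
  have hζ8 : A.z1 ≤ 1 / 8 := by linarith
  obtain ⟨R0, hR02, hR0⟩ := EDD_R0
  refine ⟨R0, by linarith, ?_⟩
  intro R δ Γ F D φ hR hΓ hD hδ hφ hφ2 hHop
  have hRw := hR0 R hR
  have hR2 : 2 ≤ R := hR02.trans hR
  have hR1 : 1 ≤ R := by linarith
  have hsg : 0 ≤ A.sg R ∨ A.sg R < 0 := le_or_gt _ _
  obtain ⟨-, -, -, -, c5, c6, -⟩ := hVPR ch A.z A.z1 R δ Γ B D hch hζ1 hζ8 hR2 hD hδ
  have gen : ∀ (f : ℝ → SL(2, ℝ) × ℝ → ℂ → ℂ) (u : ℍ → ℂ), Continuous u →
      ContinuousOn (fun x : ((SL(2, ℝ) × ℝ) × ℝ) × ℂ => f x.1.2 x.1.1 x.2) {x | |x.1.1.2| ≤ 1 / 8} →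
      (∀ s p v, f s p v ≠ 0 → ‖v‖ ≤ 1) →
      ContinuousOn (fun x : (SL(2, ℝ) × ℝ) × ℝ => aF D R x.2 (f x.2) u x.1) (GW 2 R ×ˢ Icc 0 (A.sg R)) := by
    intro f u hu hf hfs
    have h1 := EDD_pFc hVCD hD f hf
    have h2 : ContinuousOn (fun x : ((SL(2, ℝ) × ℝ) × ℝ) × ℍ => u x.2 * conj (pF D x.1.2 (f x.1.2) x.1.1 x.2))
        ((GW 2 R ×ˢ Icc 0 (A.sg R)) ×ˢ univ) := by
      apply ContinuousOn.mul (hu.comp continuous_snd).continuousOn
      apply Complex.continuous_conj.comp_continuousOn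
      exact h1.mono fun x hx => EDD_win hRw hx.1.1
    have h3 := EDD_intc (GW 2 R ×ˢ Icc 0 (A.sg R)) (fun x z => u z * conj (pF D x.2 (f x.2) x.1 z))
      (2 + 6 / 5 * A.sg R) h2 (by
        intro x hx z hne
        have hne' : pF D x.2 (f x.2) x.1 z ≠ 0 := by
          intro h0
          apply hne
          change u z * conj (pF D x.2 (f x.2) x.1 z) = 0
          rw [h0]
          simp
        have h4 := EDD_dist hVCD hHFA hD hδ (EDD_win hRw hx.1) (hfs _ _ _ hne')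
        have h5 : |x.2| ≤ A.sg R := by
          rw [abs_of_nonneg hx.2.1]
          exact hx.2.2
        linarith)
    refine h3.congr fun x hx => ?_
    change (GW 2 R).indicator (fun p => ∫ z : ℍ, u z * conj (pF D x.2 (f x.2) p z)) x.1 = _
    rw [indicator_of_mem hx.1]
  refine ⟨?_, ?_, ?_⟩
  · intro p hp t ht
    have h := EDD_deriv hVRM hVPR hVCD hHFA (ζ := A.z) hch hζ1 hζ8 hR2 hD hδ p (EDD_win hRw hp) φ hφ.cont hφ2 t
    have e1 : ∀ (s : ℝ) (f : SL(2, ℝ) × ℝ → ℂ → ℂ) (u : ℍ → ℂ), aF D R s f u p = ∫ z : ℍ, u z * conj (pF D s f p z) := by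
      intro s f u
      unfold aF
      rw [indicator_of_mem hp]
    have e2 : (fun s => aF D R s (pv D ch A.z A.z1 R s) φ p) = fun s => ∫ z : ℍ, φ z * conj (psi D ch A.z A.z1 R s p z) := by
      funext s
      rw [e1]
      rfl
    rw [e2, e1, e1]
    exact h
  · intro u hu
    exact gen (fun s => pv D ch A.z A.z1 R s) u hu.cont c5 (fun s p v hne => by
      by_contra h
      push Not at h
      exact hne (EDD_pv0 hch D hR1 (by linarith) s p v h))
  · exact gen (fun s => Er D ch A.z A.z1 R s) φ hφ.cont c6 (fun s p v hne => by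
      by_contra h
      push Not at h
      exact hne (EDD_Er0 hch D hR1 (by linarith) s p v h))

end

end Pool.Agent.VQ
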