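import Pool.Agent.helper65.VQ.VPB

/-!
# Project VQ (MP_07c750_an), row VPE: the error of the beam
-/

set_option autoImplicit false

open scoped MatrixGroups ContDiff Topology UpperHalfPlane ComplexConjugate ENNReal
open UpperHalfPlane MeasureTheory Filter Set

namespace Pool.Agent.VQ

open Pool.Agent.RS

noncomputable section

/-- the main part of the error -/
def VPE_G1 (R : ℝ) (X r : ℂ → ℂ) (M : Matrix (Fin 2) (Fin 2) ℂ) (v : ℂ) : ℂ :=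
  X v * ((R : ℂ) * r v + Complex.I / 2 * (M 0 0 + M 1 1) * (((1 - ‖v‖ ^ 2 / 4) ^ 2 - 1 : ℝ) : ℂ))

/-- the part of the error with the derivatives of the cut-off -/
def VPE_G2 (R : ℝ) (X : ℂ → ℂ) (ρ κ : ℝ) (M : Matrix (Fin 2) (Fin 2) ℂ) (v : ℂ) : ℂ :=
  -(Complex.I * fderiv ℝ X v (XV ρ κ v)) +
    (((1 - ‖v‖ ^ 2 / 4) ^ 2 : ℝ) : ℂ) * (lp2 X v / (2 * (R : ℂ)) +
      Complex.I * (fderiv ℝ X v 1 * ((ρ : ℂ) + M 0 0 * (v.re : ℂ) + M 0 1 * (v.im : ℂ)) +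
        fderiv ℝ X v Complex.I * (M 1 0 * (v.re : ℂ) + M 1 1 * (v.im : ℂ))))

theorem VPE_G2_zero (R : ℝ) (X : ℂ → ℂ) (ρ κ : ℝ) (M : Matrix (Fin 2) (Fin 2) ℂ) (v c : ℂ) (h : X =ᶠ[𝓝 v] fun _ => c) :
    VPE_G2 R X ρ κ M =ᶠ[𝓝 v] fun _ => 0 := by
  have h1 : fderiv ℝ X =ᶠ[𝓝 v] fun _ => 0 := by
    have h2 := h.fderiv (𝕜 := ℝ)
    filter_upwards [h2] with w hw
    rw [hw]
    simp
  have h3 : fderiv ℝ (fderiv ℝ X) =ᶠ[𝓝 v] fun _ => 0 := by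
    have h2 := h1.fderiv (𝕜 := ℝ)
    filter_upwards [h2] with w hw
    rw [hw]
    simp
  filter_upwards [h1, h3] with w hw1 hw3
  unfold VPE_G2 lp2
  rw [hw1, hw3]
  simp

variable {K : ℕ} {C : ℝ}

theorem VPE_Sp_nsq (hC : VPB_Cal K C) {N m : ℝ} {v : ℂ} (hN : 1 ≤ N)
    (hv : ‖v‖ ≤ m) (hmN : 1 ≤ m * N) : VPB_Sp K N (2 * C * m ^ 2) (fun w => ((‖w‖ ^ 2 : ℝ) : ℂ)) v := by
  have hN0 : 0 ≤ N := zero_le_one.trans hN
  have hm : 0 ≤ m := (norm_nonneg v).trans hv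
  have hC0 : 0 ≤ C := zero_le_one.trans hC.one
  have hCm : 0 ≤ C * m * m := mul_nonneg (mul_nonneg hC0 hm) hm
  have hre := VPB_Sp_re (K := K) hv hN0 hmN
  have him := VPB_Sp_im (K := K) hv hN0 hmN
  have h1 := hC.mul N m m _ _ v hN hm hm hre hre
  have h3 := hC.mul N m m _ _ v hN hm hm him him
  have g := hC.add N _ _ _ _ v hN hCm hCm h1 h3
  have e1 : C * m * m + C * m * m = 2 * C * m ^ 2 := by ring
  rw [e1] at g
  refine VPB_Sp_congr g (Eventually.of_forall fun w => ?_)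
  change ((‖w‖ ^ 2 : ℝ) : ℂ) = ((w.re : ℝ) : ℂ) * ((w.re : ℝ) : ℂ) + ((w.im : ℝ) : ℂ) * ((w.im : ℝ) : ℂ)
  rw [← Complex.normSq_eq_norm_sq, Complex.normSq_apply]
  push_cast
  ring

theorem VPE_Sp_w1 (hC : VPB_Cal K C) {N m : ℝ} {v : ℂ} (hN : 1 ≤ N)
    (hv : ‖v‖ ≤ m) (hmN : 1 ≤ m * N) (hm1 : m ≤ 1) :
    VPB_Sp K N (2 * C ^ 3 * m ^ 2) (fun w => (((1 - ‖w‖ ^ 2 / 4) ^ 2 - 1 : ℝ) : ℂ)) v := by
  have hN0 : 0 ≤ N := zero_le_one.trans hN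
  have hm : 0 ≤ m := (norm_nonneg v).trans hv
  have hC1 := hC.one
  have hC0 : 0 ≤ C := zero_le_one.trans hC1
  have hCm : 0 ≤ 2 * C * m ^ 2 := by positivity
  have h0 := VPE_Sp_nsq hC hN hv hmN
  have h1 := hC.mul N _ _ _ _ v hN hCm hCm h0 h0
  have g1 := VPB_Sp_cmul h1 (1 / 16 : ℂ) hN0 (m' := C ^ 3 * m ^ 4 / 4) (by
    have e : ‖(1 / 16 : ℂ)‖ = 1 / 16 := by norm_num
    rw [e]
    apply le_of_eq
    ring)
  have g2 := VPB_Sp_cmul h0 (-(1 / 2) : ℂ) hN0 (m' := C * m ^ 2) (by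
    have e : ‖(-(1 / 2) : ℂ)‖ = 1 / 2 := by norm_num
    rw [e]
    apply le_of_eq
    ring)
  have g := hC.add N _ _ _ _ v hN (by positivity) (by positivity) g1 g2
  have hC3 : C ≤ C ^ 3 := by
    calc C = C ^ 1 := (pow_one C).symm
      _ ≤ C ^ 3 := pow_le_pow_right₀ hC1 (by norm_num)
  have hm4 : m ^ 4 ≤ m ^ 2 := pow_le_pow_of_le_one hm hm1 (by norm_num)
  have g' := VPB_Sp_mono (N' := N) (m' := 2 * C ^ 3 * m ^ 2) g hN0 (by positivity) le_rfl (by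
    have a1 : C ^ 3 * m ^ 4 / 4 ≤ C ^ 3 * m ^ 2 := by
      have : C ^ 3 * m ^ 4 ≤ C ^ 3 * m ^ 2 := mul_le_mul_of_nonneg_left hm4 (by positivity)
      have h5 : 0 ≤ C ^ 3 * m ^ 4 := by positivity
      linarith
    have a2 : C * m ^ 2 ≤ C ^ 3 * m ^ 2 := mul_le_mul_of_nonneg_right hC3 (by positivity)
    linarith)
  refine VPB_Sp_congr g' (Eventually.of_forall fun w => ?_)
  change (((1 - ‖w‖ ^ 2 / 4) ^ 2 - 1 : ℝ) : ℂ) = (1 / 16 : ℂ) * (((‖w‖ ^ 2 : ℝ) : ℂ) * ((‖w‖ ^ 2 : ℝ) : ℂ)) +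
    (-(1 / 2) : ℂ) * ((‖w‖ ^ 2 : ℝ) : ℂ)
  push_cast
  ring

theorem VPE_Sp_w (hC : VPB_Cal K C) {N m : ℝ} {v : ℂ} (hN : 1 ≤ N)
    (hv : ‖v‖ ≤ m) (hmN : 1 ≤ m * N) (hm1 : m ≤ 1) :
    VPB_Sp K N (3 * C ^ 3) (fun w => (((1 - ‖w‖ ^ 2 / 4) ^ 2 : ℝ) : ℂ)) v := by
  have hN0 : 0 ≤ N := zero_le_one.trans hN
  have hm : 0 ≤ m := (norm_nonneg v).trans hv
  have hC1 := hC.one
  have hC0 : 0 ≤ C := zero_le_one.trans hC1
  have h1 := VPE_Sp_w1 hC hN hv hmN hm1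
  have h2 : VPB_Sp K N 1 (fun _ => (1 : ℂ)) v := VPB_Sp_const 1 hN0 (by simp)
  have g := hC.add N _ _ _ _ v hN (by positivity) zero_le_one h1 h2
  have hC3 : 1 ≤ C ^ 3 := one_le_pow₀ hC1
  have hm2 : m ^ 2 ≤ 1 := pow_le_one₀ hm hm1
  have g' := VPB_Sp_mono (N' := N) (m' := 3 * C ^ 3) g hN0 (by positivity) le_rfl (by
    have a1 : 2 * C ^ 3 * m ^ 2 ≤ 2 * C ^ 3 * 1 := mul_le_mul_of_nonneg_left hm2 (by positivity)
    linarith)
  refine VPB_Sp_congr g' (Eventually.of_forall fun w => ?_)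
  change (((1 - ‖w‖ ^ 2 / 4) ^ 2 : ℝ) : ℂ) = (((1 - ‖w‖ ^ 2 / 4) ^ 2 - 1 : ℝ) : ℂ) + 1
  push_cast
  ring

theorem VPE_Sp_XV (hC : VPB_Cal K C) {N m ρ κ : ℝ} {v : ℂ} (hN : 1 ≤ N)
    (hv : ‖v‖ ≤ m) (hmN : 1 ≤ m * N) (hm1 : m ≤ 1) (hρ : |ρ| ≤ 2) (hκ : |κ| ≤ 1) :
    VPB_Sp K N (4 * C) (fun w => XV ρ κ w) v := by
  have hN0 : 0 ≤ N := zero_le_one.trans hN
  have hm : 0 ≤ m := (norm_nonneg v).trans hv
  have hC1 := hC.one
  have hC0 : 0 ≤ C := zero_le_one.trans hC1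
  have hid : VPB_Sp K N m (fun w => (ContinuousLinearMap.id ℝ ℂ) w) v :=
    VPB_Sp_lin (ContinuousLinearMap.id ℝ ℂ) ContinuousLinearMap.norm_id_le hv hN0 hmN
  have h2 := hC.mul N m m _ _ v hN hm hm hid hid
  have g2 := VPB_Sp_cmul h2 (-((ρ : ℂ) / 4)) hN0 (m' := C * m * m) (by
    have e : ‖-((ρ : ℂ) / 4)‖ = |ρ| / 4 := by
      rw [norm_neg, norm_div, Complex.norm_real, Real.norm_eq_abs]
      norm_num
    rw [e]
    have h5 : 0 ≤ C * m * m := by positivity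
    have h6 : |ρ| / 4 ≤ 1 := by linarith
    calc |ρ| / 4 * (C * m * m) ≤ 1 * (C * m * m) := mul_le_mul_of_nonneg_right h6 h5
      _ = C * m * m := one_mul _)
  have g1 := VPB_Sp_cmul hid ((κ : ℂ) * Complex.I) hN0 (m' := m) (by
    have e : ‖(κ : ℂ) * Complex.I‖ = |κ| := by
      rw [norm_mul, Complex.norm_real, Real.norm_eq_abs, Complex.norm_I, mul_one]
    rw [e]
    calc |κ| * m ≤ 1 * m := mul_le_mul_of_nonneg_right hκ hm
      _ = m := one_mul _)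
  have g0 : VPB_Sp K N 2 (fun _ => (ρ : ℂ)) v := VPB_Sp_const _ hN0 (by
    rw [Complex.norm_real, Real.norm_eq_abs]
    exact hρ)
  have g := hC.add N _ _ _ _ v hN (by positivity) hm
    (hC.add N _ _ _ _ v hN (by norm_num) (by positivity) g0 g2) g1
  have g' := VPB_Sp_mono (N' := N) (m' := 4 * C) g hN0 (by positivity) le_rfl (by
    have a1 : C * m * m ≤ C * 1 * 1 := by
      apply mul_le_mul (mul_le_mul_of_nonneg_left hm1 hC0) hm1 hm (by positivity)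
    linarith)
  refine VPB_Sp_congr g' (Eventually.of_forall fun w => ?_)
  change XV ρ κ w = (ρ : ℂ) + -((ρ : ℂ) / 4) * (w * w) + (κ : ℂ) * Complex.I * w
  unfold XV
  ring

/-- a directional derivative with a variable direction -/
theorem VPE_Sp_dir (hC : VPB_Cal K C) {N mx my : ℝ} {X Y : ℂ → ℂ} {v : ℂ} (hN : 1 ≤ N) (hmx : 0 ≤ mx) (hmy : 0 ≤ my)
    (h1 : VPB_Sp K N mx (fun w => fderiv ℝ X w 1) v) (hI : VPB_Sp K N mx (fun w => fderiv ℝ X w Complex.I) v)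
    (hY : VPB_Sp K N my Y v) : VPB_Sp K N (2 * (C * my * mx)) (fun w => fderiv ℝ X w (Y w)) v := by
  have hC0 : 0 ≤ C := zero_le_one.trans hC.one
  have hLr : ‖Complex.ofRealCLM.comp Complex.reCLM‖ ≤ 1 := by
    refine ContinuousLinearMap.opNorm_le_bound _ zero_le_one fun w => ?_
    rw [one_mul]
    change ‖((w.re : ℝ) : ℂ)‖ ≤ ‖w‖
    rw [Complex.norm_real]
    exact Complex.abs_re_le_norm w
  have hLi : ‖Complex.ofRealCLM.comp Complex.imCLM‖ ≤ 1 := by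
    refine ContinuousLinearMap.opNorm_le_bound _ zero_le_one fun w => ?_
    rw [one_mul]
    change ‖((w.im : ℝ) : ℂ)‖ ≤ ‖w‖
    rw [Complex.norm_real]
    exact Complex.abs_im_le_norm w
  have hr := VPB_Sp_comp _ hLr hY
  have hi := VPB_Sp_comp _ hLi hY
  have a1 := hC.mul N my mx _ _ v hN hmy hmx hr h1
  have a2 := hC.mul N my mx _ _ v hN hmy hmx hi hI
  have hn : 0 ≤ C * my * mx := mul_nonneg (mul_nonneg hC0 hmy) hmx
  have a3 := hC.add N _ _ _ _ v hN hn hn a1 a2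
  rw [← two_mul] at a3
  refine VPB_Sp_congr a3 (Eventually.of_forall fun w => ?_)
  change fderiv ℝ X w (Y w) = (((Y w).re : ℝ) : ℂ) * fderiv ℝ X w 1 + (((Y w).im : ℝ) : ℂ) * fderiv ℝ X w Complex.I
  have e : Y w = (Y w).re • (1 : ℂ) + (Y w).im • Complex.I := by
    simp only [Complex.real_smul, mul_one]
    exact (Complex.re_add_im (Y w)).symm
  conv_lhs => rw [e]
  rw [map_add, map_smul, map_smul]
  simp only [Complex.real_smul]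

theorem VPE_Sp_fd2 {N m : ℝ} {A : ℂ → ℂ} {v e : ℂ} (hA : ContDiff ℝ ∞ A) (he : ‖e‖ ≤ 1)
    (h : ∀ k ≤ K, ‖iteratedFDeriv ℝ (k + 2) A v‖ ≤ m * N ^ k) :
    VPB_Sp K N m (fun w => fderiv ℝ (fderiv ℝ A) w e e) v := by
  have h1 : ContDiff ℝ ∞ (fderiv ℝ A) := hA.fderiv_right (by simp)
  have h2 : ContDiff ℝ ∞ (fderiv ℝ (fderiv ℝ A)) := h1.fderiv_right (by simp)
  have h3 : ContDiff ℝ ∞ (fun w => fderiv ℝ (fderiv ℝ A) w e) := h2.clm_apply contDiff_const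
  refine ⟨(h3.clm_apply contDiff_const).contDiffAt, fun k hk => ?_⟩
  have g2 : ContDiffAt ℝ (k : ℕ∞ω) (fderiv ℝ (fderiv ℝ A)) v := h2.contDiffAt.of_le (by exact_mod_cast le_top)
  have g3 : ContDiffAt ℝ (k : ℕ∞ω) (fun w => fderiv ℝ (fderiv ℝ A) w e) v :=
    h3.contDiffAt.of_le (by exact_mod_cast le_top)
  have a3 := norm_iteratedFDeriv_clm_apply_const (c := e) g3 (le_refl _)
  have a2 := norm_iteratedFDeriv_clm_apply_const (c := e) g2 (le_refl _)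
  rw [norm_iteratedFDeriv_fderiv, norm_iteratedFDeriv_fderiv] at a2
  have b2 : ‖iteratedFDeriv ℝ k (fun w => fderiv ℝ (fderiv ℝ A) w e) v‖ ≤ m * N ^ k := by
    refine a2.trans ?_
    calc ‖e‖ * ‖iteratedFDeriv ℝ (k + 1 + 1) A v‖ ≤ 1 * (m * N ^ k) :=
          mul_le_mul he (h k hk) (norm_nonneg _) zero_le_one
      _ = m * N ^ k := one_mul _
  refine a3.trans ?_
  calc ‖e‖ * ‖iteratedFDeriv ℝ k (fun w => fderiv ℝ (fderiv ℝ A) w e) v‖ ≤ 1 * (m * N ^ k) :=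
        mul_le_mul he b2 (norm_nonneg _) zero_le_one
    _ = m * N ^ k := one_mul _

theorem VPE_Sp_r3 {N m B : ℝ} {r : ℂ → ℂ} {v : ℂ} (hN : 1 ≤ N) (hv : ‖v‖ ≤ m) (hmN : 1 ≤ m * N) (hB : 0 ≤ B)
    (hr : ContDiffAt ℝ ∞ r v) (h3 : ∀ k ≤ 3, ‖iteratedFDeriv ℝ k r v‖ ≤ B * ‖v‖ ^ (3 - k))
    (hK : ∀ k ≤ K, ‖iteratedFDeriv ℝ k r v‖ ≤ B) : VPB_Sp K N (B * m ^ 3) r v := by
  have hN0 : 0 ≤ N := zero_le_one.trans hN
  have hm : 0 ≤ m := (norm_nonneg v).trans hv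
  refine ⟨hr, fun k hk => ?_⟩
  rcases Nat.lt_or_ge 3 k with h | h
  · refine (hK k hk).trans ?_
    have e1 : m ^ 3 * N ^ k = (m * N) ^ 3 * N ^ (k - 3) := by
      rw [mul_pow, mul_assoc, ← pow_add]
      congr 2
      omega
    have h1 : 1 ≤ (m * N) ^ 3 * N ^ (k - 3) := by
      have a1 : 1 ≤ (m * N) ^ 3 := one_le_pow₀ hmN
      have a2 : 1 ≤ N ^ (k - 3) := one_le_pow₀ hN
      nlinarith
    calc B = B * 1 := (mul_one B).symm
      _ ≤ B * ((m * N) ^ 3 * N ^ (k - 3)) := mul_le_mul_of_nonneg_left h1 hB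
      _ = B * m ^ 3 * N ^ k := by rw [← e1]; ring
  · refine (h3 k h).trans ?_
    have e1 : m ^ 3 * N ^ k = m ^ (3 - k) * (m * N) ^ k := by
      rw [mul_pow, ← mul_assoc, ← pow_add]
      congr 2
      omega
    have h1 : ‖v‖ ^ (3 - k) ≤ m ^ (3 - k) * (m * N) ^ k := by
      have a1 : ‖v‖ ^ (3 - k) ≤ m ^ (3 - k) := pow_le_pow_left₀ (norm_nonneg _) hv _
      have a2 : 1 ≤ (m * N) ^ k := one_le_pow₀ hmN
      have a3 : 0 ≤ m ^ (3 - k) := pow_nonneg hm _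
      nlinarith
    calc B * ‖v‖ ^ (3 - k) ≤ B * (m ^ (3 - k) * (m * N) ^ k) := mul_le_mul_of_nonneg_left h1 hB
      _ = B * m ^ 3 * N ^ k := by rw [← e1]; ring

theorem VPE_Sp_G1 (hC : VPB_Cal K C) {N m R CX r0 b : ℝ} {X r : ℂ → ℂ} {v : ℂ} (M : Matrix (Fin 2) (Fin 2) ℂ)
    (hN : 1 ≤ N) (hv : ‖v‖ ≤ m) (hmN : 1 ≤ m * N) (hm1 : m ≤ 1) (hR : 0 ≤ R) (hCX : 0 ≤ CX) (hr0 : 0 ≤ r0)
    (hX : VPB_Sp K N CX X v) (hr : VPB_Sp K N r0 r v) (hM : ∀ i j, ‖M i j‖ ≤ b) :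
    VPB_Sp K N (C * CX * (R * r0 + b * (2 * C ^ 3 * m ^ 2))) (VPE_G1 R X r M) v := by
  have hN0 : 0 ≤ N := zero_le_one.trans hN
  have hm : 0 ≤ m := (norm_nonneg v).trans hv
  have hC0 : 0 ≤ C := zero_le_one.trans hC.one
  have hb : 0 ≤ b := (norm_nonneg _).trans (hM 0 0)
  have h1 := VPB_Sp_cmul hr (R : ℂ) hN0 (m' := R * r0) (by
    rw [Complex.norm_real, Real.norm_of_nonneg hR])
  have h2 := VPB_Sp_cmul (VPE_Sp_w1 hC hN hv hmN hm1) (Complex.I / 2 * (M 0 0 + M 1 1)) hN0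
    (m' := b * (2 * C ^ 3 * m ^ 2)) (by
      apply mul_le_mul_of_nonneg_right _ (by positivity)
      rw [norm_mul, norm_div, Complex.norm_I]
      have h3 : ‖M 0 0 + M 1 1‖ ≤ b + b := (norm_add_le _ _).trans (add_le_add (hM 0 0) (hM 1 1))
      have h4 : ‖(2 : ℂ)‖ = 2 := by norm_num
      rw [h4]
      linarith)
  have h3 := hC.add N _ _ _ _ v hN (mul_nonneg hR hr0) (by positivity) h1 h2
  exact hC.mul N _ _ _ _ v hN hCX (by positivity) hX h3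

theorem VPE_Sp_G2 (hC : VPB_Cal K C) {N m R CX ρ κ : ℝ} {X : ℂ → ℂ} {v : ℂ} (M : Matrix (Fin 2) (Fin 2) ℂ)
    (hN : 1 ≤ N) (hNR : N * N = R) (hv : ‖v‖ ≤ m) (hmN : 1 ≤ m * N) (hm1 : m ≤ 1) (hR : 2 ≤ R) (hCX : 0 ≤ CX)
    (hρ : |ρ| ≤ 2) (hκ : |κ| ≤ 1) (hX : ContDiff ℝ ∞ X) (hXb : ∀ k ≤ K + 2, ‖iteratedFDeriv ℝ k X v‖ ≤ CX * N ^ k)
    (hM : ∀ i j, ‖M i j‖ ≤ R) :
    VPB_Sp K N (29 * C ^ 5 * CX * R ^ 2) (VPE_G2 R X ρ κ M) v := by
  have hN0 : 0 ≤ N := zero_le_one.trans hN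
  have hm : 0 ≤ m := (norm_nonneg v).trans hv
  have hC1 := hC.one
  have hC0 : 0 ≤ C := zero_le_one.trans hC1
  have hR0 : 0 ≤ R := by linarith
  have hNR' : N ≤ R := by nlinarith
  have hCXR : 0 ≤ CX * R := mul_nonneg hCX hR0
  have hd : ∀ e : ℂ, ‖e‖ ≤ 1 → VPB_Sp K N (CX * R) (fun w => fderiv ℝ X w e) v := by
    intro e he
    have h1 : VPB_Sp K N (CX * N) (fun w => fderiv ℝ X w e) v := by
      apply VPB_Sp_fderiv hX he
      intro k hk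
      refine (hXb (k + 1) (by omega)).trans (le_of_eq ?_)
      rw [pow_succ]
      ring
    exact VPB_Sp_mono h1 hN0 (mul_nonneg hCX hN0) le_rfl (mul_le_mul_of_nonneg_left hNR' hCX)
  have h1 := hd 1 (by simp)
  have hI := hd Complex.I (by simp)
  -- the transport term
  have hXV := VPE_Sp_XV hC hN hv hmN hm1 hρ hκ
  have hdir := VPE_Sp_dir hC hN hCXR (by positivity) h1 hI hXV
  have g1 := VPB_Sp_cmul hdir (-Complex.I) hN0 (m' := 2 * (C * (4 * C) * (CX * R))) (by simp)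
  -- the second derivatives
  have hdd : ∀ e : ℂ, ‖e‖ ≤ 1 → VPB_Sp K N (CX * R) (fun w => fderiv ℝ (fderiv ℝ X) w e e) v := by
    intro e he
    apply VPE_Sp_fd2 hX he
    intro k hk
    refine (hXb (k + 2) (by omega)).trans (le_of_eq ?_)
    rw [pow_add, ← hNR]
    ring
  have l1 := hC.add N _ _ _ _ v hN hCXR hCXR (hdd 1 (by simp)) (hdd Complex.I (by simp))
  have l2 := VPB_Sp_cmul l1 ((1 : ℂ) / (2 * (R : ℂ))) hN0 (m' := CX) (by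
    rw [norm_div, norm_mul, Complex.norm_real, Real.norm_of_nonneg hR0, norm_one]
    have h4 : ‖(2 : ℂ)‖ = 2 := by norm_num
    rw [h4]
    apply le_of_eq
    have : R ≠ 0 := by linarith
    field_simp
    ring)
  -- the gradient of the phase
  have hre := VPB_Sp_re (K := K) hv hN0 hmN
  have him := VPB_Sp_im (K := K) hv hN0 hmN
  have hRm : R * m ≤ R := by nlinarith
  have q0 : VPB_Sp K N 2 (fun _ => (ρ : ℂ)) v := VPB_Sp_const _ hN0 (by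
    rw [Complex.norm_real, Real.norm_eq_abs]
    exact hρ)
  have c : ∀ i j, ∀ {f : ℂ → ℂ}, VPB_Sp K N m f v → VPB_Sp K N R (fun w => M i j * f w) v := fun i j f hf =>
    VPB_Sp_cmul hf (M i j) hN0 ((mul_le_mul_of_nonneg_right (hM i j) hm).trans hRm)
  have q1 := hC.add N _ _ _ _ v hN (by positivity) hR0 (hC.add N _ _ _ _ v hN (by norm_num) hR0 q0 (c 0 0 hre)) (c 0 1 him)
  have q2 := hC.add N _ _ _ _ v hN hR0 hR0 (c 1 0 hre) (c 1 1 him)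
  have p1 := hC.mul N _ _ _ _ v hN hCXR (by positivity) h1 q1
  have p2 := hC.mul N _ _ _ _ v hN hCXR (by positivity) hI q2
  have p3 := hC.add N _ _ _ _ v hN (by positivity) (by positivity) p1 p2
  have p4 := VPB_Sp_cmul p3 Complex.I hN0 (m' := C * (CX * R) * (2 + R + R) + C * (CX * R) * (R + R)) (by simp)
  have p5 := hC.add N _ _ _ _ v hN hCX (by positivity) l2 p4
  have p6 := hC.mul N _ _ _ _ v hN (by positivity) (by positivity) (VPE_Sp_w hC hN hv hmN hm1) p5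
  have p7 := hC.add N _ _ _ _ v hN (by positivity) (by positivity) g1 p6
  refine VPB_Sp_congr (VPB_Sp_mono p7 hN0 (by positivity) le_rfl ?_) (Eventually.of_forall fun w => ?_)
  · have hR1 : 1 ≤ R := by linarith
    have hRR : R ≤ R ^ 2 := by nlinarith
    have hR2 : 1 ≤ R ^ 2 := by nlinarith
    have hC5 : C ^ 2 ≤ C ^ 5 := pow_le_pow_right₀ hC1 (by norm_num)
    have a1 : 2 * (C * (4 * C) * (CX * R)) ≤ 8 * C ^ 5 * CX * R ^ 2 := by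
      calc 2 * (C * (4 * C) * (CX * R)) = 8 * (CX * (C ^ 2 * R)) := by ring
        _ ≤ 8 * (CX * (C ^ 5 * R ^ 2)) := by
          apply mul_le_mul_of_nonneg_left _ (by norm_num)
          apply mul_le_mul_of_nonneg_left _ hCX
          exact mul_le_mul hC5 hRR hR0 (by positivity)
        _ = 8 * C ^ 5 * CX * R ^ 2 := by ring
    have a2 : CX + (C * (CX * R) * (2 + R + R) + C * (CX * R) * (R + R)) ≤ 7 * C * CX * R ^ 2 := by
      have b1 : CX ≤ C * CX * R ^ 2 := by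
        have : 1 ≤ C * R ^ 2 := by nlinarith
        nlinarith
      have b2 : C * (CX * R) * (2 + R + R) ≤ C * (CX * R) * (3 * R) :=
        mul_le_mul_of_nonneg_left (by linarith) (by positivity)
      have b3 : C * (CX * R) * (R + R) ≤ C * (CX * R) * (3 * R) :=
        mul_le_mul_of_nonneg_left (by linarith) (by positivity)
      have b4 : C * (CX * R) * (3 * R) = 3 * (C * CX * R ^ 2) := by ring
      have b5 : 0 ≤ C * CX * R ^ 2 := by positivity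
      linarith
    have a3 : C * (3 * C ^ 3) * (CX + (C * (CX * R) * (2 + R + R) + C * (CX * R) * (R + R))) ≤
        21 * C ^ 5 * CX * R ^ 2 := by
      calc C * (3 * C ^ 3) * (CX + (C * (CX * R) * (2 + R + R) + C * (CX * R) * (R + R)))
          ≤ C * (3 * C ^ 3) * (7 * C * CX * R ^ 2) := mul_le_mul_of_nonneg_left a2 (by positivity)
        _ = 21 * C ^ 5 * CX * R ^ 2 := by ring
    linarith
  · unfold VPE_G2 lp2
    ring

/-- numbers: the exponential gain beats every power -/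
theorem VPE_ev (c a k : ℝ) (ha : 0 < a) (hk : 0 < k) :
    ∀ᶠ R : ℝ in atTop, c * R ^ (3 : ℝ) * Real.exp (-(k * R ^ a)) ≤ 1 := by
  have h1 := (tendsto_rpow_mul_exp_neg_mul_atTop_nhds_zero (3 / a) k hk).comp (tendsto_rpow_atTop ha)
  have hc : 0 < 1 / (|c| + 1) := by positivity
  have h2 := (tendsto_order.1 h1).2 _ hc
  filter_upwards [h2, eventually_gt_atTop 0] with R hR hR0
  have e1 : (R ^ a) ^ (3 / a) = R ^ (3 : ℝ) := by
    rw [← Real.rpow_mul hR0.le]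
    congr 1
    field_simp
  have h3 : R ^ (3 : ℝ) * Real.exp (-(k * R ^ a)) < 1 / (|c| + 1) := by
    have : ((fun x : ℝ => x ^ (3 / a) * Real.exp (-k * x)) ∘ fun x : ℝ => x ^ a) R =
        R ^ (3 : ℝ) * Real.exp (-(k * R ^ a)) := by
      change (R ^ a) ^ (3 / a) * Real.exp (-k * R ^ a) = _
      rw [e1]
      congr 2
      ring
    rw [← this]
    exact hR
  have h4 : 0 ≤ R ^ (3 : ℝ) * Real.exp (-(k * R ^ a)) := by positivity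
  calc c * R ^ (3 : ℝ) * Real.exp (-(k * R ^ a)) = c * (R ^ (3 : ℝ) * Real.exp (-(k * R ^ a))) := by ring
    _ ≤ (|c| + 1) * (R ^ (3 : ℝ) * Real.exp (-(k * R ^ a))) := by
      apply mul_le_mul_of_nonneg_right _ h4
      have := le_abs_self c
      linarith
    _ ≤ (|c| + 1) * (1 / (|c| + 1)) := mul_le_mul_of_nonneg_left h3.le (by positivity)
    _ = 1 := by
      have : |c| + 1 ≠ 0 := by positivity
      field_simp

/-- numbers: the imaginary part on the support of the derivatives of the cut-off -/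
theorem VPE_im {C E R ζ1 q n : ℝ} (hR : 1 ≤ R) (hC : 0 < C) (hE : E ≤ R ^ ζ1) (hE0 : 0 < E)
    (hn : R ^ (-(1 / 2) + ζ1) / 2 ≤ n) (hq : n ^ 2 ≤ C * E * q) : 1 / (8 * C) * R ^ ζ1 ≤ R / 2 * q := by
  have hR0 : 0 < R := lt_of_lt_of_le one_pos hR
  have hp : 0 < R ^ (-(1 / 2) + ζ1) := Real.rpow_pos_of_pos hR0 _
  have hz : 0 < R ^ ζ1 := Real.rpow_pos_of_pos hR0 _
  have hCE : 0 < C * E := mul_pos hC hE0
  have hn2 : (R ^ (-(1 / 2) + ζ1)) ^ 2 / 4 ≤ n ^ 2 := by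
    have := pow_le_pow_left₀ (by positivity) hn 2
    calc (R ^ (-(1 / 2) + ζ1)) ^ 2 / 4 = (R ^ (-(1 / 2) + ζ1) / 2) ^ 2 := by ring
      _ ≤ n ^ 2 := this
  have hq0 : 0 ≤ q := by
    by_contra h
    push Not at h
    have := mul_neg_of_pos_of_neg hCE h
    nlinarith [sq_nonneg n]
  have e1 : R * (R ^ (-(1 / 2) + ζ1)) ^ 2 = R ^ ζ1 * R ^ ζ1 := by
    rw [← Real.rpow_natCast (R ^ (-(1 / 2) + ζ1)) 2, ← Real.rpow_mul hR0.le, ← Real.rpow_add hR0]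
    nth_rewrite 1 [← Real.rpow_one R]
    rw [← Real.rpow_add hR0]
    congr 1
    push_cast
    ring
  have h1 : (R ^ (-(1 / 2) + ζ1)) ^ 2 ≤ 4 * (C * R ^ ζ1 * q) := by
    have : C * E * q ≤ C * R ^ ζ1 * q :=
      mul_le_mul_of_nonneg_right (mul_le_mul_of_nonneg_left hE hC.le) hq0
    linarith
  have h2 : R ^ ζ1 * R ^ ζ1 ≤ R ^ ζ1 * (4 * C * (R * q)) := by
    rw [← e1]
    calc R * (R ^ (-(1 / 2) + ζ1)) ^ 2 ≤ R * (4 * (C * R ^ ζ1 * q)) := mul_le_mul_of_nonneg_left h1 hR0.le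
      _ = R ^ ζ1 * (4 * C * (R * q)) := by ring
  have h3 : R ^ ζ1 ≤ 4 * C * (R * q) := le_of_mul_le_mul_left h2 hz
  have h4 : 1 / (8 * C) * R ^ ζ1 ≤ 1 / (8 * C) * (4 * C * (R * q)) := mul_le_mul_of_nonneg_left h3 (by positivity)
  have h5 : 1 / (8 * C) * (4 * C * (R * q)) = R / 2 * q := by
    field_simp
    ring
  rw [h5] at h4
  exact h4

/-- numbers: the main part -/
theorem VPE_num {CK CX C3 CY R ζ1 : ℝ} (hR : 1 ≤ R) (hζ : 0 ≤ ζ1) (hCK : 0 ≤ CK) (hCX : 0 ≤ CX) (hCY : 0 ≤ CY)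
    (h : CK * CX * (C3 + CY * (2 * CK ^ 3)) ≤ R ^ ζ1) :
    CK * CX * (R * (C3 * R ^ ζ1 * (R ^ (-(1 / 2) + ζ1)) ^ 3) + CY * R ^ ζ1 * (2 * CK ^ 3 * (R ^ (-(1 / 2) + ζ1)) ^ 2)) ≤
      R ^ (-(1 / 2) + 5 * ζ1) := by
  have hR0 : 0 < R := lt_of_lt_of_le one_pos hR
  have e3 : R * (R ^ ζ1 * (R ^ (-(1 / 2) + ζ1)) ^ 3) = R ^ (-(1 / 2) + 4 * ζ1) := by
    rw [← Real.rpow_natCast (R ^ (-(1 / 2) + ζ1)) 3, ← Real.rpow_mul hR0.le, ← Real.rpow_add hR0]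
    nth_rewrite 1 [← Real.rpow_one R]
    rw [← Real.rpow_add hR0]
    congr 1
    push_cast
    ring
  have e2 : R ^ ζ1 * (R ^ (-(1 / 2) + ζ1)) ^ 2 ≤ R ^ (-(1 / 2) + 4 * ζ1) := by
    rw [← Real.rpow_natCast (R ^ (-(1 / 2) + ζ1)) 2, ← Real.rpow_mul hR0.le, ← Real.rpow_add hR0]
    apply Real.rpow_le_rpow_of_exponent_le hR
    push_cast
    linarith
  have e5 : R ^ ζ1 * R ^ (-(1 / 2) + 4 * ζ1) = R ^ (-(1 / 2) + 5 * ζ1) := by
    rw [← Real.rpow_add hR0]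
    congr 1
    ring
  have hp : 0 ≤ R ^ (-(1 / 2) + 4 * ζ1) := (Real.rpow_pos_of_pos hR0 _).le
  calc CK * CX * (R * (C3 * R ^ ζ1 * (R ^ (-(1 / 2) + ζ1)) ^ 3) + CY * R ^ ζ1 * (2 * CK ^ 3 * (R ^ (-(1 / 2) + ζ1)) ^ 2))
      = CK * CX * (C3 * (R * (R ^ ζ1 * (R ^ (-(1 / 2) + ζ1)) ^ 3)) +
          CY * (2 * CK ^ 3) * (R ^ ζ1 * (R ^ (-(1 / 2) + ζ1)) ^ 2)) := by ring
    _ ≤ CK * CX * (C3 * R ^ (-(1 / 2) + 4 * ζ1) + CY * (2 * CK ^ 3) * R ^ (-(1 / 2) + 4 * ζ1)) := by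
      rw [e3]
      apply mul_le_mul_of_nonneg_left _ (mul_nonneg hCK hCX)
      have := mul_le_mul_of_nonneg_left e2 (by positivity : 0 ≤ CY * (2 * CK ^ 3))
      linarith
    _ = CK * CX * (C3 + CY * (2 * CK ^ 3)) * R ^ (-(1 / 2) + 4 * ζ1) := by ring
    _ ≤ R ^ ζ1 * R ^ (-(1 / 2) + 4 * ζ1) := mul_le_mul_of_nonneg_right h hp
    _ = R ^ (-(1 / 2) + 5 * ζ1) := e5

theorem VPE_proof (hVRM : VRM_stmt) (hVR3 : VR3_stmt) (hVYB : VYB_stmt) (hVUB : VUB_stmt) (hVSY : VSY_stmt)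
    (hVCT : VCT_stmt) (hVBR : VBR_stmt) : VPE_stmt := by
  obtain ⟨CY, hCY1, hY⟩ := hVYB
  obtain ⟨C3, hC31, h3⟩ := hVR3
  refine ⟨CY + C3 + 16, by linarith, ?_⟩
  intro ch K e ζ ζ1 B hch hRg
  obtain ⟨he0, hζ, hζζ, hCe, hCζ⟩ := hRg
  have hζ1 : 0 < ζ1 := lt_of_lt_of_le hζ hζζ
  have hζ16 : 16 * ζ1 ≤ 1 := by nlinarith
  have hYe : CY * e ≤ ζ1 := by nlinarith
  have h3e : C3 * e ≤ ζ1 := by nlinarith
  obtain ⟨CK, hCK⟩ := VPB_cal hVSY K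
  obtain ⟨CX, hCX1, hX⟩ := hVCT ch (K + 2) hch
  obtain ⟨RB, hRB1, hBR⟩ := hVBR ch ζ hch hζ (by linarith)
  obtain ⟨C', hC'1, hr3⟩ := h3 K B
  have hCK1 := hCK.one
  have hC0 : 0 ≤ CK := by linarith
  have hX0 : 0 ≤ CX := by linarith
  have hY0 : 0 ≤ CY := by linarith
  have hC'0 : 0 ≤ C' := by linarith
  obtain ⟨R0, hR01, hR0⟩ := VPB_R0 ((((eventually_ge_atTop RB).and (eventually_ge_atTop 2)).and
    ((VPB_ev (2 * CY * CK) ζ1 hζ1).and (VPB_ev CY ζ1 hζ1))).and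
    (((VPB_ev (CK * CX * (C' + CY * (2 * CK ^ 3))) ζ1 hζ1).and (VPB_ev (CK ^ 2 + 1) ζ1 hζ1)).and
      (VPE_ev (CK * CK * (29 * CK ^ 5 * CX)) ζ1 (1 / (8 * CY)) hζ1 (by positivity))))
  refine ⟨R0, hR01, ?_⟩
  intro R δ Γ D p t hR hD hδ hE ht
  obtain ⟨⟨⟨hRB, hR2⟩, hn1, hnY⟩, ⟨hn2, hn3⟩, hn4⟩ := hR0 R hR
  have hR1 : 1 ≤ R := hR01.trans hR
  have hRp : 0 < R := lt_of_lt_of_le one_pos hR1
  obtain ⟨-, -, -, -, -, -, -, hcl, hcu⟩ := hBR R hRB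
  have hcr0 : 0 ≤ cR ch ζ R := Real.sqrt_nonneg _
  have hpow : ∀ a : ℝ, 0 ≤ R ^ a := fun a => (Real.rpow_pos_of_pos hRp a).le
  obtain ⟨hXs, hXsup, hXb, hXone, -⟩ := hX ζ1 R hζ1.le (by linarith) hR1
  obtain ⟨hM, ha, hIm, -⟩ := hY Γ δ B D hD hδ p.2 t p.1 hE
  obtain ⟨-, -, hrho, -⟩ := hVUB Γ δ B D.U hD.pot hδ
  obtain ⟨hrho1, hrho2, -, hkap, -⟩ := hrho p.2 (D.fl p.2 t p.1) hE
  obtain ⟨hEr, -⟩ := hVRM ch ζ ζ1 R δ Γ B D p t hch hζ1 (by linarith) hR2 hD hδ hE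
  have hexp : Real.exp (CY * |t|) ≤ R ^ ζ1 := VPB_exp_le hR1 hY0 hYe ht
  have hexp3 : Real.exp (C3 * |t|) ≤ R ^ ζ1 := VPB_exp_le hR1 (by linarith) h3e ht
  have hM' : ∀ i j, ‖D.M p.2 t p.1 i j‖ ≤ CY * R ^ ζ1 := fun i j =>
    (hM i j).2.2.2.trans (mul_le_mul_of_nonneg_left hexp hY0)
  have hMR : ∀ i j, ‖D.M p.2 t p.1 i j‖ ≤ R := by
    intro i j
    refine (hM' i j).trans ?_
    calc CY * R ^ ζ1 ≤ R ^ ζ1 * R ^ ζ1 := mul_le_mul_of_nonneg_right hnY (hpow _)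
      _ = R ^ (ζ1 + ζ1) := (Real.rpow_add hRp _ _).symm
      _ ≤ R ^ (1 : ℝ) := Real.rpow_le_rpow_of_exponent_le hR1 (by linarith)
      _ = R := Real.rpow_one R
  have ha' : ‖D.a p.2 t p.1‖ ≤ CY * R ^ ζ1 := ha.trans (mul_le_mul_of_nonneg_left hexp hY0)
  have hImq : ∀ v : ℂ, 0 ≤ (qf (D.M p.2 t p.1) v).im := by
    intro v
    have h1 := hIm v
    have h2 : 0 < CY * Real.exp (CY * |t|) := by positivity
    by_contra h
    push Not at h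
    nlinarith [sq_nonneg ‖v‖, mul_neg_of_pos_of_neg h2 h]
  obtain ⟨hm1, hm2⟩ := VPB_num2 (R := R) (ζ1 := ζ1) hR1 hζ1.le
  have hN1 : 1 ≤ R ^ (1 / 2 : ℝ) := Real.one_le_rpow hR1 (by norm_num)
  have hNR : R ^ (1 / 2 : ℝ) * R ^ (1 / 2 : ℝ) = R := by
    rw [← Real.rpow_add hRp]
    norm_num
  have hL1 : 1 ≤ R ^ (4 * ζ1) := Real.one_le_rpow hR1 (by linarith)
  have hmle : R ^ (-(1 / 2) + ζ1) ≤ 1 := Real.rpow_le_one_of_one_le_of_nonpos hR1 (by linarith)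
  have hNN : 1 ≤ R ^ (1 / 2 + 4 * ζ1) := Real.one_le_rpow hR1 (by linarith)
  set X : ℂ → ℂ := fun w => ((ch (R ^ (1 - 2 * ζ1) * ‖w‖ ^ 2) : ℝ) : ℂ) with hXdef
  set ρ : ℝ := rho D.U p.2 (D.fl p.2 t p.1) with hρdef
  set κ : ℝ := kap D.U p.2 (D.fl p.2 t p.1) with hκdef
  set M : Matrix (Fin 2) (Fin 2) ℂ := D.M p.2 t p.1 with hMdef
  set c0 : ℂ := (cR ch ζ R : ℂ) * D.a p.2 t p.1 * Complex.exp (((R * D.S p.2 t p.1 : ℝ) : ℂ) * Complex.I) with hc0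
  have hρ2 : |ρ| ≤ 2 := by
    rw [abs_le]
    constructor <;> linarith
  have hκ1 : |κ| ≤ 1 := by linarith
  have hc0n : ‖c0‖ ≤ R ^ (3 / 2 + 2 * ζ1) := by
    refine (VPB_const hcr0 hcu ha').trans ?_
    calc R ^ (3 / 2 : ℝ) * (CY * R ^ ζ1) ≤ R ^ (3 / 2 : ℝ) * (R ^ ζ1 * R ^ ζ1) :=
          mul_le_mul_of_nonneg_left (mul_le_mul_of_nonneg_right hnY (hpow _)) (hpow _)
      _ = R ^ (3 / 2 + 2 * ζ1) := by
        rw [← Real.rpow_add hRp, ← Real.rpow_add hRp]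
        congr 1
        ring
  -- the main estimate
  have hin : ∀ v : ℂ, ‖v‖ ≤ R ^ (-(1 / 2) + ζ1) → VPB_Sp K (R ^ (1 / 2 + 4 * ζ1)) (R ^ (1 + 8 * ζ1))
      (fun v => c0 * (Complex.exp (VPB_psi R M v) * VPE_G1 R X (r3 D t p) M v +
        Complex.exp (VPB_psi R M v) * VPE_G2 R X ρ κ M v)) v := by
    intro v hv
    have hv1 : ‖v‖ ≤ 1 := hv.trans hmle
    have hg := VPB_Sp_gauss hCK (N := R ^ (1 / 2 : ℝ)) (m := R ^ (-(1 / 2) + ζ1)) (b := CY * R ^ ζ1) (R := R)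
      (L := R ^ (4 * ζ1)) (v := v) M hN1 hv hm1 hM' hRp.le hL1 (VPB_num hR1 hn1)
    rw [hm2] at hg
    have hexp1 : Real.exp (-(R / 2 * (qf M v).im)) ≤ 1 := by
      rw [Real.exp_le_one_iff]
      have := mul_nonneg (by linarith : (0 : ℝ) ≤ R / 2) (hImq v)
      linarith
    have hg' := VPB_Sp_mono (N' := R ^ (1 / 2 + 4 * ζ1)) (m' := CK) hg (hpow _) (by positivity) le_rfl (by
      calc CK * Real.exp (-(R / 2 * (qf M v).im)) ≤ CK * 1 := mul_le_mul_of_nonneg_left hexp1 hC0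
        _ = CK := mul_one _)
    have hx : VPB_Sp K (R ^ (1 / 2 : ℝ)) CX X v := ⟨hXs.contDiffAt, fun k hk => hXb k (by omega) v⟩
    -- the remainder
    obtain ⟨hr1, hr2, hr4⟩ := hr3 δ Γ D p t hD hδ hE v hv1
    have hBr : C' * Real.exp (C3 * |t|) ≤ C' * R ^ ζ1 := mul_le_mul_of_nonneg_left hexp3 hC'0
    have hr := VPE_Sp_r3 (K := K) (N := R ^ (1 / 2 : ℝ)) (m := R ^ (-(1 / 2) + ζ1)) (B := C' * R ^ ζ1) (v := v) hN1 hv hm1
      (by positivity) hr1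
      (fun k hk => (hr2 k hk).trans (mul_le_mul_of_nonneg_right hBr (pow_nonneg (norm_nonneg _) _)))
      (fun k hk => (hr4 k hk).trans hBr)
    have hG1 := VPE_Sp_G1 hCK M hN1 hv hm1 hmle hRp.le hX0 (by positivity) hx hr hM'
    have hG1' := VPB_Sp_mono (N' := R ^ (1 / 2 + 4 * ζ1)) (m' := R ^ (-(1 / 2) + 5 * ζ1)) hG1 (hpow _) (by positivity)
      (Real.rpow_le_rpow_of_exponent_le hR1 (by linarith)) (VPE_num hR1 hζ1.le hC0 hX0 hY0 hn2)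
    have hP1 := hCK.mul _ _ _ _ _ v hNN hC0 (hpow _) hg' hG1'
    -- the second part
    have hP2 : VPB_Sp K (R ^ (1 / 2 + 4 * ζ1)) (R ^ (-(1 / 2) + 5 * ζ1))
        (fun v => Complex.exp (VPB_psi R M v) * VPE_G2 R X ρ κ M v) v := by
      rcases lt_or_ge ‖v‖ (R ^ (-(1 / 2) + ζ1) / 2) with hlt | hge
      · have h1 : X =ᶠ[𝓝 v] fun _ => 1 := by
          have hopen : {w : ℂ | ‖w‖ < R ^ (-(1 / 2) + ζ1) / 2} ∈ 𝓝 v :=
            (isOpen_lt continuous_norm continuous_const).mem_nhds hlt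
          filter_upwards [hopen] with w hw
          have hw' : ‖w‖ < R ^ (-(1 / 2) + ζ1) / 2 := hw
          have h2 := hXone w hw'.le
          change ((ch (R ^ (1 - 2 * ζ1) * ‖w‖ ^ 2) : ℝ) : ℂ) = 1
          rw [h2]
          simp
        have h2 := VPE_G2_zero R X ρ κ M v 1 h1
        refine VPB_Sp_congr (VPB_Sp_zero (hpow _) (hpow _)) ?_
        filter_upwards [h2] with w hw
        rw [hw]
        simp
      · have hG2 := VPE_Sp_G2 hCK M (κ := κ) hN1 hNR hv hm1 hmle hR2 hX0 hρ2 hκ1 hXs (fun k hk => hXb k hk v) hMR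
        have hG2' := VPB_Sp_mono (N' := R ^ (1 / 2 + 4 * ζ1)) (m' := 29 * CK ^ 5 * CX * R ^ 2) hG2 (hpow _)
          (by positivity) (Real.rpow_le_rpow_of_exponent_le hR1 (by linarith)) le_rfl
        have h5 := hCK.mul _ _ _ _ _ v hNN (by positivity) (by positivity) hg hG2'
        refine VPB_Sp_mono h5 (hpow _) (by positivity) le_rfl ?_
        have h6 : 1 / (8 * CY) * R ^ ζ1 ≤ R / 2 * (qf M v).im :=
          VPE_im hR1 (by linarith) hexp (Real.exp_pos _) hge (hIm v)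
        have h7 : Real.exp (-(R / 2 * (qf M v).im)) ≤ Real.exp (-(1 / (8 * CY) * R ^ ζ1)) :=
          Real.exp_le_exp.2 (by linarith)
        have h8 : (R : ℝ) ^ (3 : ℝ) = R ^ 2 * R := by
          have : (R : ℝ) ^ (3 : ℝ) = R ^ (3 : ℕ) := by
            rw [← Real.rpow_natCast]
            norm_num
          rw [this]
          ring
        rw [h8] at hn4
        have h9 : CK * (CK * Real.exp (-(R / 2 * (qf M v).im))) * (29 * CK ^ 5 * CX * R ^ 2) * R ≤ 1 := by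
          calc CK * (CK * Real.exp (-(R / 2 * (qf M v).im))) * (29 * CK ^ 5 * CX * R ^ 2) * R
              = (CK * CK * (29 * CK ^ 5 * CX) * (R ^ 2 * R)) * Real.exp (-(R / 2 * (qf M v).im)) := by ring
            _ ≤ (CK * CK * (29 * CK ^ 5 * CX) * (R ^ 2 * R)) * Real.exp (-(1 / (8 * CY) * R ^ ζ1)) :=
              mul_le_mul_of_nonneg_left h7 (by positivity)
            _ ≤ 1 := hn4
        have h10 : CK * (CK * Real.exp (-(R / 2 * (qf M v).im))) * (29 * CK ^ 5 * CX * R ^ 2) ≤ R⁻¹ := by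
          rw [← one_div, le_div_iff₀ hRp]
          exact h9
        refine h10.trans ?_
        rw [← Real.rpow_neg_one]
        exact Real.rpow_le_rpow_of_exponent_le hR1 (by linarith)
    have hP3 := hCK.add _ _ _ _ _ v hNN (by positivity) (hpow _) hP1 hP2
    refine VPB_Sp_cmul hP3 c0 (hpow _) ?_
    have hq : CK * CK * R ^ (-(1 / 2) + 5 * ζ1) + R ^ (-(1 / 2) + 5 * ζ1) ≤ R ^ (-(1 / 2) + 6 * ζ1) := by
      calc CK * CK * R ^ (-(1 / 2) + 5 * ζ1) + R ^ (-(1 / 2) + 5 * ζ1) = (CK ^ 2 + 1) * R ^ (-(1 / 2) + 5 * ζ1) := by ring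
        _ ≤ R ^ ζ1 * R ^ (-(1 / 2) + 5 * ζ1) := mul_le_mul_of_nonneg_right hn3 (hpow _)
        _ = R ^ (-(1 / 2) + 6 * ζ1) := by
          rw [← Real.rpow_add hRp]
          congr 1
          ring
    calc ‖c0‖ * (CK * CK * R ^ (-(1 / 2) + 5 * ζ1) + R ^ (-(1 / 2) + 5 * ζ1))
        ≤ R ^ (3 / 2 + 2 * ζ1) * R ^ (-(1 / 2) + 6 * ζ1) := mul_le_mul hc0n hq (by positivity) (hpow _)
      _ = R ^ (1 + 8 * ζ1) := by
        rw [← Real.rpow_add hRp]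
        congr 1
        ring
  have hout : ∀ v : ℂ, R ^ (-(1 / 2) + ζ1) < ‖v‖ →
      (fun v => c0 * (Complex.exp (VPB_psi R M v) * VPE_G1 R X (r3 D t p) M v +
        Complex.exp (VPB_psi R M v) * VPE_G2 R X ρ κ M v)) =ᶠ[𝓝 v] fun _ => 0 := by
    intro v hv
    have h1 : X =ᶠ[𝓝 v] fun _ => 0 := VPB_X_out hch hR1 v hv
    have h2 := VPE_G2_zero R X ρ κ M v 0 h1
    filter_upwards [h1, h2] with w hw1 hw2
    rw [hw2]
    unfold VPE_G1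
    rw [hw1]
    simp
  obtain ⟨hA1, hA2, hA3⟩ := VPB_glob (K := K) (N := R ^ (1 / 2 + (CY + C3 + 16) * ζ1))
    (m := R ^ (1 + (CY + C3 + 16) * ζ1))
    (hpow _) (hpow _) (Real.rpow_le_rpow_of_exponent_le hR1 (by nlinarith))
    (Real.rpow_le_rpow_of_exponent_le hR1 (by nlinarith)) hout hin
  refine ⟨_, hA1, ?_, hA3, ?_⟩
  · intro v hv
    refine (hA2 v hv).trans (Real.rpow_le_rpow_of_exponent_le hR1 ?_)
    nlinarith
  · intro v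
    rw [hEr v]
    have e0 : Complex.exp (Complex.I * (R : ℂ) * (((D.S p.2 t p.1 + ρ * v.re : ℝ) : ℂ) + qf M v / 2)) =
        Complex.exp (((R * ρ * v.re : ℝ) : ℂ) * Complex.I) *
        (Complex.exp (((R * D.S p.2 t p.1 : ℝ) : ℂ) * Complex.I) * Complex.exp (VPB_psi R M v)) := by
      unfold VPB_psi
      rw [← Complex.exp_add, ← Complex.exp_add]
      congr 1
      push_cast
      ring
    rw [e0, hc0]
    unfold VPE_G1 VPE_G2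
    ring

end

end Pool.Agent.VQ
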