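import Pool.Agent.helper65.VQ.SymP

/-!
# Project VQ (MP_07c750_an): the Gaussian factor of the beams as a symbol (used for rows VPB, VPE)
-/

set_option autoImplicit false

open scoped MatrixGroups ContDiff Topology UpperHalfPlane ComplexConjugate ENNReal
open UpperHalfPlane MeasureTheory Filter Set

namespace Pool.Agent.VQ

open Pool.Agent.RS

/-- from pointwise bounds to a globally smooth function with compact support -/
theorem VPB_glob {K : ℕ} {s N0 m0 N m : ℝ} {A : ℂ → ℂ} (hN0 : 0 ≤ N0) (hm0 : 0 ≤ m0) (hN : N0 ≤ N) (hm : m0 ≤ m)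
    (hout : ∀ v : ℂ, s < ‖v‖ → A =ᶠ[𝓝 v] fun _ => 0) (hin : ∀ v : ℂ, ‖v‖ ≤ s → VPB_Sp K N0 m0 A v) :
    ContDiff ℝ ∞ A ∧ (∀ v, A v ≠ 0 → ‖v‖ ≤ s) ∧ ∀ k ≤ K, ∀ v, ‖iteratedFDeriv ℝ k A v‖ ≤ m * N ^ k := by
  have key : ∀ v : ℂ, VPB_Sp K N m A v := by
    intro v
    rcases le_or_gt ‖v‖ s with h | h
    · exact VPB_Sp_mono (hin v h) hN0 hm0 hN hm
    · exact VPB_Sp_congr (VPB_Sp_zero (hN0.trans hN) (hm0.trans hm)) (hout v h)
  refine ⟨?_, ?_, ?_⟩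
  · rw [contDiff_iff_contDiffAt]
    exact fun v => (key v).1
  · intro v hv
    by_contra h
    push Not at h
    exact hv (hout v h).eq_of_nhds
  · exact fun k hk v => (key v).2 k hk

/-- the quadratic form as a symbol -/
theorem VPB_Sp_qf {K : ℕ} {C : ℝ} (hC : VPB_Cal K C) {N m b : ℝ} {v : ℂ} (M : Matrix (Fin 2) (Fin 2) ℂ) (hN : 1 ≤ N)
    (hv : ‖v‖ ≤ m) (hmN : 1 ≤ m * N) (hM : ∀ i j, ‖M i j‖ ≤ b) :
    VPB_Sp K N (4 * b * C * m ^ 2) (fun w => qf M w) v := by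
  have hN0 : 0 ≤ N := zero_le_one.trans hN
  have hm : 0 ≤ m := (norm_nonneg v).trans hv
  have hb : 0 ≤ b := (norm_nonneg _).trans (hM 0 0)
  have hC0 : 0 ≤ C := zero_le_one.trans hC.one
  have hCm : 0 ≤ C * m * m := mul_nonneg (mul_nonneg hC0 hm) hm
  have hre := VPB_Sp_re (K := K) hv hN0 hmN
  have him := VPB_Sp_im (K := K) hv hN0 hmN
  have h1 := hC.mul N m m _ _ v hN hm hm hre hre
  have h2 := hC.mul N m m _ _ v hN hm hm hre him
  have h3 := hC.mul N m m _ _ v hN hm hm him him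
  have g1 := VPB_Sp_cmul h1 (M 0 0) hN0 (m' := b * (C * m * m)) (mul_le_mul_of_nonneg_right (hM 0 0) hCm)
  have g2 := VPB_Sp_cmul h2 (M 0 1 + M 1 0) hN0 (m' := (b + b) * (C * m * m))
    (mul_le_mul_of_nonneg_right ((norm_add_le _ _).trans (add_le_add (hM 0 1) (hM 1 0))) hCm)
  have g3 := VPB_Sp_cmul h3 (M 1 1) hN0 (m' := b * (C * m * m)) (mul_le_mul_of_nonneg_right (hM 1 1) hCm)
  have hb1 : 0 ≤ b * (C * m * m) := mul_nonneg hb hCm
  have hb2 : 0 ≤ (b + b) * (C * m * m) := mul_nonneg (add_nonneg hb hb) hCm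
  have g4 := hC.add N _ _ _ _ v hN (add_nonneg hb1 hb2) hb1 (hC.add N _ _ _ _ v hN hb1 hb2 g1 g2) g3
  have e1 : b * (C * m * m) + (b + b) * (C * m * m) + b * (C * m * m) = 4 * b * C * m ^ 2 := by ring
  rw [e1] at g4
  refine VPB_Sp_congr g4 (Eventually.of_forall fun w => ?_)
  change qf M w = M 0 0 * (((w.re : ℝ) : ℂ) * ((w.re : ℝ) : ℂ)) + (M 0 1 + M 1 0) * (((w.re : ℝ) : ℂ) * ((w.im : ℝ) : ℂ)) +
    M 1 1 * (((w.im : ℝ) : ℂ) * ((w.im : ℝ) : ℂ))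
  unfold qf
  push_cast
  ring

/-- the exponent -/
noncomputable def VPB_psi (R : ℝ) (M : Matrix (Fin 2) (Fin 2) ℂ) (v : ℂ) : ℂ := Complex.I * (R : ℂ) / 2 * qf M v

theorem VPB_psi_re (R : ℝ) (M : Matrix (Fin 2) (Fin 2) ℂ) (v : ℂ) :
    (VPB_psi R M v).re = -(R / 2 * (qf M v).im) := by
  unfold VPB_psi
  have e : Complex.I * (R : ℂ) / 2 * qf M v = Complex.I * (((R / 2 : ℝ) : ℂ) * qf M v) := by
    push_cast
    ring
  rw [e, Complex.mul_re, Complex.I_re, Complex.I_im, Complex.re_ofReal_mul, Complex.im_ofReal_mul]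
  ring

/-- the Gaussian factor as a symbol: `m` the radius, `b` the bound of the matrix -/
theorem VPB_Sp_gauss {K : ℕ} {C : ℝ} (hC : VPB_Cal K C) {N m b R L : ℝ} {v : ℂ} (M : Matrix (Fin 2) (Fin 2) ℂ) (hN : 1 ≤ N)
    (hv : ‖v‖ ≤ m) (hmN : 1 ≤ m * N) (hM : ∀ i j, ‖M i j‖ ≤ b) (hR : 0 ≤ R) (hL : 1 ≤ L)
    (hb : R / 2 * (4 * b * C * m ^ 2) ≤ L) :
    VPB_Sp K (L * N) (C * Real.exp (-(R / 2 * (qf M v).im))) (fun w => Complex.exp (VPB_psi R M w)) v := by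
  have hN0 : 0 ≤ N := zero_le_one.trans hN
  have hL0 : 0 ≤ L := zero_le_one.trans hL
  have h1 := VPB_Sp_qf hC M hN hv hmN hM
  have h2 := VPB_Sp_cmul h1 (Complex.I * (R : ℂ) / 2) hN0 (m' := L) (by
    have e : ‖Complex.I * (R : ℂ) / 2‖ = R / 2 := by
      rw [norm_div, norm_mul, Complex.norm_I, one_mul, Complex.norm_real, Real.norm_of_nonneg hR]
      simp
    rw [e]
    exact hb)
  have hLN : 1 ≤ L * N := by nlinarith
  have h3 := hC.exp (L * N) (VPB_psi R M) v hLN h2.1 (fun k hk1 hkK => by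
    have h4 := h2.2 k hkK
    refine h4.trans ?_
    rw [mul_pow]
    have h5 : L ≤ L ^ k := by
      calc L = L ^ 1 := (pow_one L).symm
        _ ≤ L ^ k := pow_le_pow_right₀ hL hk1
    exact mul_le_mul_of_nonneg_right h5 (pow_nonneg hN0 k))
  rw [VPB_psi_re] at h3
  exact h3

/-- times up to `e log R` -/
theorem VPB_exp_le {C e ζ R t : ℝ} (hR : 1 ≤ R) (hC : 0 ≤ C) (he : C * e ≤ ζ) (ht : |t| ≤ e * Real.log R) :
    Real.exp (C * |t|) ≤ R ^ ζ := by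
  have hR0 : 0 < R := lt_of_lt_of_le one_pos hR
  have hl : 0 ≤ Real.log R := Real.log_nonneg hR
  rw [Real.rpow_def_of_pos hR0]
  apply Real.exp_le_exp.2
  calc C * |t| ≤ C * (e * Real.log R) := mul_le_mul_of_nonneg_left ht hC
    _ = C * e * Real.log R := by ring
    _ ≤ ζ * Real.log R := mul_le_mul_of_nonneg_right he hl
    _ = Real.log R * ζ := by ring

theorem VPB_ev (c a : ℝ) (ha : 0 < a) : ∀ᶠ R : ℝ in atTop, c ≤ R ^ a :=
  (tendsto_rpow_atTop ha).eventually_ge_atTop c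

theorem VPB_R0 {P : ℝ → Prop} (h : ∀ᶠ R : ℝ in atTop, P R) : ∃ R0 : ℝ, 1 ≤ R0 ∧ ∀ R, R0 ≤ R → P R := by
  obtain ⟨R0, hR0⟩ := eventually_atTop.1 h
  exact ⟨max 1 R0, le_max_left _ _, fun R hR => hR0 R ((le_max_right _ _).trans hR)⟩

end Pool.Agent.VQ
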