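import Pool.Agent.helper55.VQ.SpecD
import Pool.Agent.helper87.VQ.VGR

/-!
# Project VQ (MP_07c750_an), row EDD: the coefficients of the evolved packets as functions of the time
-/

set_option autoImplicit false

open scoped MatrixGroups ContDiff Topology UpperHalfPlane ComplexConjugate ENNReal
open UpperHalfPlane MeasureTheory Filter Set

namespace Pool.Agent.VQ

open Pool.Agent.RS
open Pool.Agent.RPQ (CEig mean VV IsOp)

noncomputable section

/-! ### Green's formula with one compact support -/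

theorem EDD_lapz (ψ : ℍ → ℂ) (hψ2 : QU.CD 2 ψ) (z : ℍ) (hz : z ∉ tsupport ψ) : QU.lap ψ z = 0 := by
  obtain ⟨-, -, -, -, -, -, -, -, -, hts⟩ := QU.A_CA1 ℂ
  have e := (QU.A_CA2 ℂ ψ hψ2 z).2
  have h1 : z ∉ tsupport (QU.dX (QU.dX ψ)) := fun h => hz ((hts ψ).1 ((hts _).1 h))
  have h2 : z ∉ tsupport (QU.dY (QU.dY ψ)) := fun h => hz ((hts ψ).2 ((hts _).2 h))
  have h3 : z ∉ tsupport (QU.dY ψ) := fun h => hz ((hts ψ).2 h)
  rw [e, image_eq_zero_of_notMem_tsupport h1, image_eq_zero_of_notMem_tsupport h2,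
    image_eq_zero_of_notMem_tsupport h3]
  simp

theorem EDD_green (φ ψ : ℍ → ℂ) (hφc : Continuous φ) (hψc : Continuous ψ)
    (hψs : HasCompactSupport ψ) (hφ2 : QU.CD 2 φ) (hψ2 : QU.CD 2 ψ) :
    ∫ z : ℍ, QU.lap φ z * conj (ψ z) = ∫ z : ℍ, φ z * conj (QU.lap ψ z) := by
  have lφ := VGR_lapc φ hφ2
  have lψ := VGR_lapc ψ hψ2
  have hls : HasCompactSupport (QU.lap ψ) :=
    HasCompactSupport.intro hψs.isCompact fun z hz => EDD_lapz ψ hψ2 z hz
  have hG : ∀ L : ℂ →L[ℝ] ℝ, ∫ z : ℍ, L (ψ z) • QU.lap φ z = ∫ z : ℍ, L (QU.lap ψ z) • φ z := by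
    intro L
    have h0 := QU.A_GRN ℂ (fun z => L (ψ z)) φ (L.contDiff.comp_contDiffOn hψ2) hφ2
      (hψs.comp_left (map_zero L))
    rw [h0]
    refine integral_congr_ae (Eventually.of_forall (fun z => ?_))
    change QU.lap (fun z => L (ψ z)) z • φ z = L (QU.lap ψ z) • φ z
    rw [FL4_Llap L ψ hψ2]
  have i1 : ∀ L : ℂ →L[ℝ] ℝ, Integrable fun z : ℍ => L (ψ z) • QU.lap φ z := fun L =>
    Continuous.integrable_of_hasCompactSupport ((L.continuous.comp hψc).smul lφ)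
      ((hψs.comp_left (map_zero L)).smul_right)
  have i2 : ∀ L : ℂ →L[ℝ] ℝ, Integrable fun z : ℍ => L (QU.lap ψ z) • φ z := fun L =>
    Continuous.integrable_of_hasCompactSupport ((L.continuous.comp lψ).smul hφc)
      ((hls.comp_left (map_zero L)).smul_right)
  have e1 : ∫ z : ℍ, QU.lap φ z * conj (ψ z) = (∫ z : ℍ, Complex.reCLM (ψ z) • QU.lap φ z) -
      Complex.I * ∫ z : ℍ, Complex.imCLM (ψ z) • QU.lap φ z := by
    rw [← integral_const_mul, ← integral_sub (i1 _) ((i1 _).const_mul _)]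
    refine integral_congr_ae (Eventually.of_forall (fun z => ?_))
    change QU.lap φ z * conj (ψ z) = Complex.reCLM (ψ z) • QU.lap φ z -
      Complex.I * (Complex.imCLM (ψ z) • QU.lap φ z)
    rw [Complex.real_smul, Complex.real_smul, Complex.reCLM_apply, Complex.imCLM_apply]
    have h5 : conj (ψ z) = ((ψ z).re : ℂ) - (ψ z).im * Complex.I := by
      apply Complex.ext <;> simp
    rw [h5]
    ring
  have e2 : ∫ z : ℍ, φ z * conj (QU.lap ψ z) = (∫ z : ℍ, Complex.reCLM (QU.lap ψ z) • φ z) -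
      Complex.I * ∫ z : ℍ, Complex.imCLM (QU.lap ψ z) • φ z := by
    rw [← integral_const_mul, ← integral_sub (i2 _) ((i2 _).const_mul _)]
    refine integral_congr_ae (Eventually.of_forall (fun z => ?_))
    change φ z * conj (QU.lap ψ z) = Complex.reCLM (QU.lap ψ z) • φ z -
      Complex.I * (Complex.imCLM (QU.lap ψ z) • φ z)
    rw [Complex.real_smul, Complex.real_smul, Complex.reCLM_apply, Complex.imCLM_apply]
    have h5 : conj (QU.lap ψ z) = ((QU.lap ψ z).re : ℂ) - (QU.lap ψ z).im * Complex.I := by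
      apply Complex.ext <;> simp
    rw [h5]
    ring
  rw [e1, e2, hG, hG]

theorem EDD_hop (U : ℍ → ℝ) (R : ℝ) (φ ψ : ℍ → ℂ) (hU : Continuous U) (hφc : Continuous φ) (hψc : Continuous ψ)
    (hψs : HasCompactSupport ψ) (hφ2 : QU.CD 2 φ) (hψ2 : QU.CD 2 ψ) :
    ∫ z : ℍ, φ z * conj (Hop U R ψ z) = ∫ z : ℍ, Hop U R φ z * conj (ψ z) := by
  have lφ := VGR_lapc φ hφ2
  have lψ := VGR_lapc ψ hψ2
  have hls : HasCompactSupport (QU.lap ψ) :=
    HasCompactSupport.intro hψs.isCompact fun z hz => EDD_lapz ψ hψ2 z hz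
  have hc : Continuous fun z : ℍ => conj (ψ z) := Complex.continuous_conj.comp hψc
  have hcs : HasCompactSupport fun z : ℍ => conj (ψ z) := hψs.comp_left (map_zero _)
  have hlc : Continuous fun z : ℍ => conj (QU.lap ψ z) := Complex.continuous_conj.comp lψ
  have hlcs : HasCompactSupport fun z : ℍ => conj (QU.lap ψ z) := hls.comp_left (map_zero _)
  have hUc : Continuous fun z : ℍ => ((R ^ 2 * U z : ℝ) : ℂ) :=
    Complex.continuous_ofReal.comp (continuous_const.mul hU)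
  have j1 : Integrable fun z : ℍ => φ z * conj (QU.lap ψ z) :=
    Continuous.integrable_of_hasCompactSupport (hφc.mul hlc) hlcs.mul_left
  have j2 : Integrable fun z : ℍ => ((R ^ 2 * U z : ℝ) : ℂ) * φ z * conj (ψ z) :=
    Continuous.integrable_of_hasCompactSupport ((hUc.mul hφc).mul hc) hcs.mul_left
  have j3 : Integrable fun z : ℍ => QU.lap φ z * conj (ψ z) :=
    Continuous.integrable_of_hasCompactSupport (lφ.mul hc) hcs.mul_left
  have e1 : ∫ z : ℍ, φ z * conj (Hop U R ψ z) = (((2 * R)⁻¹ : ℝ) : ℂ) * ((∫ z : ℍ, φ z * conj (QU.lap ψ z)) -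
      ∫ z : ℍ, ((R ^ 2 * U z : ℝ) : ℂ) * φ z * conj (ψ z)) := by
    rw [← integral_sub j1 j2, ← integral_const_mul]
    refine integral_congr_ae (Eventually.of_forall (fun z => ?_))
    change φ z * conj (Hop U R ψ z) = (((2 * R)⁻¹ : ℝ) : ℂ) * (φ z * conj (QU.lap ψ z) -
      ((R ^ 2 * U z : ℝ) : ℂ) * φ z * conj (ψ z))
    unfold Hop
    rw [map_mul, map_sub, map_mul, Complex.conj_ofReal, Complex.conj_ofReal]
    ring
  have e2 : ∫ z : ℍ, Hop U R φ z * conj (ψ z) = (((2 * R)⁻¹ : ℝ) : ℂ) * ((∫ z : ℍ, QU.lap φ z * conj (ψ z)) -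
      ∫ z : ℍ, ((R ^ 2 * U z : ℝ) : ℂ) * φ z * conj (ψ z)) := by
    rw [← integral_sub j3 j2, ← integral_const_mul]
    refine integral_congr_ae (Eventually.of_forall (fun z => ?_))
    change Hop U R φ z * conj (ψ z) = (((2 * R)⁻¹ : ℝ) : ℂ) * (QU.lap φ z * conj (ψ z) -
      ((R ^ 2 * U z : ℝ) : ℂ) * φ z * conj (ψ z))
    unfold Hop
    ring
  rw [e1, e2, EDD_green φ ψ hφc hψc hψs hφ2 hψ2]

/-! ### Supports -/

theorem EDD_pv0 {ch : ℝ → ℝ} (hch : CH ch) (D : Dyn) {ζ ζ1 R : ℝ} (hR : 1 ≤ R) (hζ1 : ζ1 ≤ 1 / 2) (s : ℝ)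
    (p : SL(2, ℝ) × ℝ) (v : ℂ) (hv : 1 < ‖v‖) : pv D ch ζ ζ1 R s p v = 0 := by
  have h1 : 1 ≤ R ^ (1 - 2 * ζ1) * ‖v‖ ^ 2 := by
    have a1 : 1 ≤ R ^ (1 - 2 * ζ1) := Real.one_le_rpow hR (by linarith)
    have a2 : 1 ≤ ‖v‖ ^ 2 := by nlinarith
    nlinarith
  unfold pv
  rw [hch.zero _ h1]
  simp

theorem EDD_Er0 {ch : ℝ → ℝ} (hch : CH ch) (D : Dyn) {ζ ζ1 R : ℝ} (hR : 1 ≤ R) (hζ1 : ζ1 ≤ 1 / 2) (t : ℝ)
    (p : SL(2, ℝ) × ℝ) (v : ℂ) (hv : 1 < ‖v‖) : Er D ch ζ ζ1 R t p v = 0 := by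
  have h0 : ∀ s, pv D ch ζ ζ1 R s p =ᶠ[𝓝 v] fun _ => 0 := by
    intro s
    have hopen : {w : ℂ | 1 < ‖w‖} ∈ 𝓝 v := (isOpen_lt continuous_const continuous_norm).mem_nhds hv
    filter_upwards [hopen] with w hw
    exact EDD_pv0 hch D hR hζ1 s p w hw
  have h1 : fderiv ℝ (pv D ch ζ ζ1 R t p) =ᶠ[𝓝 v] fun _ => 0 := by
    have h2 := (h0 t).fderiv (𝕜 := ℝ)
    filter_upwards [h2] with w hw
    rw [hw]
    simp
  have h3 : fderiv ℝ (fderiv ℝ (pv D ch ζ ζ1 R t p)) v = 0 := by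
    rw [h1.fderiv_eq]
    simp
  have h4 : (fun s => pv D ch ζ ζ1 R s p v) = fun _ => 0 := by
    funext s
    exact (h0 s).eq_of_nhds
  unfold Er Lg lp2
  rw [h4, h1.eq_of_nhds, h3, (h0 t).eq_of_nhds]
  simp

theorem EDD_dist (hVCD : VCD_stmt) (hHFA : HFA_stmt) {Γ : Subgroup SL(2, ℝ)} {δ : ℝ} {B : ℕ → ℝ} {D : Dyn}
    (hD : OKD Γ δ B D) (hδ : δ ≤ 1 / 10) {p : SL(2, ℝ) × ℝ} (hp : |p.2| ≤ 1 / 8) {t : ℝ} {z : ℍ}
    (h : ‖cd ((D.fl p.2 t p.1)⁻¹ • z)‖ ≤ 1) : dist z (p.1 • I : ℍ) ≤ 2 + 6 / 5 * |t| := by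
  obtain ⟨-, -, -, -, -, -, hd, -⟩ := hVCD
  have h1 := hd _ h
  have h2 : dist z (D.fl p.2 t p.1 • I : ℍ) = dist ((D.fl p.2 t p.1)⁻¹ • z : ℍ) I := by
    have h3 := dist_smul (D.fl p.2 t p.1) ((D.fl p.2 t p.1)⁻¹ • z) I
    rw [smul_inv_smul] at h3
    exact h3
  obtain ⟨-, -, -, h4⟩ := hHFA Γ δ B D hD hδ p.2 0 t hp p.1
  have h5 := dist_triangle z (D.fl p.2 t p.1 • I : ℍ) (p.1 • I : ℍ)
  linarith

/-! ### Continuity -/

theorem EDD_flc {Γ : Subgroup SL(2, ℝ)} {δ : ℝ} {B : ℕ → ℝ} {D : Dyn} (hVCD : VCD_stmt) (hD : OKD Γ δ B D) :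
    ContinuousOn (fun x : ((SL(2, ℝ) × ℝ) × ℝ) × ℍ => cd ((D.fl x.1.1.2 x.1.2 x.1.1.1)⁻¹ • x.2))
      {x | |x.1.1.2| ≤ 1 / 8} := by
  obtain ⟨-, -, -, -, -, -, -, hcd, -⟩ := hVCD
  have h1 : ContinuousOn (fun x : ((SL(2, ℝ) × ℝ) × ℝ) × ℍ => D.fl x.1.1.2 x.1.2 x.1.1.1)
      {x | |x.1.1.2| ≤ 1 / 8} := by
    have h2 : Continuous fun x : ((SL(2, ℝ) × ℝ) × ℝ) × ℍ => ((x.1.1.2, x.1.2, x.1.1.1) : ℝ × ℝ × SL(2, ℝ)) := by
      fun_prop
    exact hD.cfl.comp h2.continuousOn fun x hx => hx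
  have h3 : ContinuousOn (fun x : ((SL(2, ℝ) × ℝ) × ℝ) × ℍ => (D.fl x.1.1.2 x.1.2 x.1.1.1)⁻¹ • x.2)
      {x | |x.1.1.2| ≤ 1 / 8} := h1.inv.smul continuous_snd.continuousOn
  exact hcd.comp_continuousOn h3

theorem EDD_pFc {Γ : Subgroup SL(2, ℝ)} {δ : ℝ} {B : ℕ → ℝ} {D : Dyn} (hVCD : VCD_stmt) (hD : OKD Γ δ B D)
    (f : ℝ → SL(2, ℝ) × ℝ → ℂ → ℂ)
    (hf : ContinuousOn (fun x : ((SL(2, ℝ) × ℝ) × ℝ) × ℂ => f x.1.2 x.1.1 x.2) {x | |x.1.1.2| ≤ 1 / 8}) :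
    ContinuousOn (fun x : ((SL(2, ℝ) × ℝ) × ℝ) × ℍ => pF D x.1.2 (f x.1.2) x.1.1 x.2) {x | |x.1.1.2| ≤ 1 / 8} := by
  have h1 : ContinuousOn (fun x : ((SL(2, ℝ) × ℝ) × ℝ) × ℍ =>
      ((x.1, cd ((D.fl x.1.1.2 x.1.2 x.1.1.1)⁻¹ • x.2)) : ((SL(2, ℝ) × ℝ) × ℝ) × ℂ)) {x | |x.1.1.2| ≤ 1 / 8} :=
    continuous_fst.continuousOn.prodMk (EDD_flc hVCD hD)
  exact hf.comp h1 fun x hx => hx

/-- integrals of continuous families with locally bounded supports -/
theorem EDD_intc (S : Set ((SL(2, ℝ) × ℝ) × ℝ)) (f : (SL(2, ℝ) × ℝ) × ℝ → ℍ → ℂ) (c : ℝ)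
    (hf : ContinuousOn (fun x : ((SL(2, ℝ) × ℝ) × ℝ) × ℍ => f x.1 x.2) (S ×ˢ univ))
    (hs : ∀ x ∈ S, ∀ z, f x z ≠ 0 → dist z (x.1.1 • I : ℍ) ≤ c) : ContinuousOn (fun x => ∫ z : ℍ, f x z) S := by
  apply continuousOn_of_locally_continuousOn
  intro x0 hx0
  have hc : Continuous fun x : (SL(2, ℝ) × ℝ) × ℝ => (x.1.1 • I : ℍ) := by
    have : Continuous fun g : SL(2, ℝ) => (g • I : ℍ) := continuous_id.smul continuous_const
    exact this.comp (continuous_fst.comp continuous_fst)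
  refine ⟨{x | dist (x.1.1 • I : ℍ) (x0.1.1 • I : ℍ) < 1},
    isOpen_lt (hc.dist continuous_const) continuous_const, ?_, ?_⟩
  · change dist (x0.1.1 • I : ℍ) (x0.1.1 • I : ℍ) < 1
    rw [dist_self]
    exact one_pos
  · apply continuousOn_integral_of_compact_support (isCompact_closedBall (x0.1.1 • I : ℍ) (c + 1))
    · exact hf.mono (prod_mono inter_subset_left (subset_refl _))
    · intro x z hx hz
      by_contra hne
      apply hz
      rw [Metric.mem_closedBall]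
      have h1 := hs x hx.1 z hne
      have h2 : dist (x.1.1 • I : ℍ) (x0.1.1 • I : ℍ) < 1 := hx.2
      have h3 := dist_triangle z (x.1.1 • I : ℍ) (x0.1.1 • I : ℍ)
      linarith

theorem EDD_R0 : ∃ R0 : ℝ, 2 ≤ R0 ∧ ∀ R : ℝ, R0 ≤ R → 2 * R ^ (-(1 / 4) : ℝ) ≤ 1 / 8 := by
  have h1 := (tendsto_rpow_neg_atTop (y := 1 / 4) (by norm_num)).eventually_lt_const (u := 1 / 16) (by norm_num)
  obtain ⟨R0, hR0⟩ := eventually_atTop.1 h1
  refine ⟨max 2 R0, le_max_left _ _, fun R hR => ?_⟩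
  have := hR0 R ((le_max_right _ _).trans hR)
  linarith

theorem EDD_win {R : ℝ} (hR : 2 * R ^ (-(1 / 4) : ℝ) ≤ 1 / 8) {p : SL(2, ℝ) × ℝ} (hp : p ∈ GW 2 R) : |p.2| ≤ 1 / 8 := by
  have h : p.2 ∈ Icc (-(2 * R ^ (-(1 / 4) : ℝ))) (2 * R ^ (-(1 / 4) : ℝ)) := hp.2
  rw [abs_le]
  exact ⟨by linarith [h.1], by linarith [h.2]⟩

theorem EDD_abs (φ : ℍ → ℂ) (Ψ G : ℝ → ℍ → ℂ) (hφ : Continuous φ) (hΨ : Continuous fun y : ℝ × ℍ => Ψ y.1 y.2)
    (hG : Continuous fun y : ℝ × ℍ => G y.1 y.2) (hd : ∀ s z, HasDerivAt (fun r => Ψ r z) (G s z) s) (z0 : ℍ)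
    (hs : ∀ s z, Ψ s z ≠ 0 → dist z z0 ≤ 2 + 6 / 5 * |s|) (t : ℝ) :
    HasDerivAt (fun s => ∫ z : ℍ, φ z * conj (Ψ s z)) (∫ z : ℍ, φ z * conj (G t z)) t := by
  have hd' : ∀ s z, HasDerivAt (fun r => φ z * conj (Ψ r z)) (φ z * conj (G s z)) s := by
    intro s z
    have h1 := hd s z
    have h2 : HasDerivAt (fun r => conj (Ψ r z)) (conj (G s z)) s := by
      have h3 := (Complex.conjCLE.toContinuousLinearMap.hasFDerivAt (x := Ψ s z)).comp_hasDerivAt s h1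
      exact h3
    exact h2.const_mul (φ z)
  have hF'c : Continuous fun y : ℝ × ℍ => φ y.2 * conj (G y.1 y.2) :=
    (hφ.comp continuous_snd).mul (Complex.continuous_conj.comp hG)
  have hFc : Continuous fun y : ℝ × ℍ => φ y.2 * conj (Ψ y.1 y.2) :=
    (hφ.comp continuous_snd).mul (Complex.continuous_conj.comp hΨ)
  have hF1 : ∀ s, Continuous fun z : ℍ => φ z * conj (Ψ s z) := fun s =>
    hFc.comp (continuous_const.prodMk continuous_id)
  have hF2 : ∀ s, Continuous fun z : ℍ => φ z * conj (G s z) := fun s =>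
    hF'c.comp (continuous_const.prodMk continuous_id)
  set K : Set ℍ := Metric.closedBall z0 (2 + 6 / 5 * (|t| + 1)) with hK
  have hKc : IsCompact K := isCompact_closedBall _ _
  have hsab : ∀ s ∈ Metric.ball t 1, |s| ≤ |t| + 1 := by
    intro s hs
    rw [Metric.mem_ball, Real.dist_eq] at hs
    have := abs_sub_abs_le_abs_sub s t
    linarith
  obtain ⟨M, hM⟩ := (isCompact_Icc (a := t - 1) (b := t + 1)).prod hKc |>.exists_bound_of_continuousOn hF'c.continuousOn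
  have hmain := hasDerivAt_integral_of_dominated_loc_of_deriv_le (μ := (volume : Measure ℍ))
    (F := fun s z => φ z * conj (Ψ s z)) (F' := fun s z => φ z * conj (G s z)) (x₀ := t) (s := Metric.ball t 1)
    (bound := K.indicator fun _ => M) (Metric.ball_mem_nhds t one_pos)
    (Eventually.of_forall fun s => (hF1 s).aestronglyMeasurable)
    (by
      refine (hF1 t).integrable_of_hasCompactSupport (HasCompactSupport.intro hKc fun z hz => ?_)
      by_contra hne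
      apply hz
      have hne' : Ψ t z ≠ 0 := by
        intro h0
        apply hne
        rw [h0]
        simp
      have := hs t z hne'
      rw [hK, Metric.mem_closedBall]
      linarith)
    (hF2 t).aestronglyMeasurable
    (by
      refine Eventually.of_forall fun z s hs' => ?_
      by_cases hz : z ∈ K
      · rw [indicator_of_mem hz]
        have hs'' := hs'
        rw [Metric.mem_ball, Real.dist_eq, abs_lt] at hs''
        exact hM (s, z) ⟨⟨by linarith [hs''.1], by linarith [hs''.2]⟩, hz⟩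
      · rw [indicator_of_notMem hz]
        have h0 : (fun r => φ z * conj (Ψ r z)) =ᶠ[𝓝 s] fun _ => 0 := by
          filter_upwards [Metric.isOpen_ball.mem_nhds hs'] with r hr
          have h1 : Ψ r z = 0 := by
            by_contra hne
            apply hz
            have h2 := hs r z hne
            have h3 := hsab r hr
            rw [hK, Metric.mem_closedBall]
            linarith
          rw [h1]
          simp
        have h1 : φ z * conj (G s z) = 0 := by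
          have h2 := (hd' s z).congr_of_eventuallyEq h0.symm
          exact h2.unique (hasDerivAt_const s (0 : ℂ))
        rw [h1, norm_zero])
    (by
      rw [integrable_indicator_iff hKc.measurableSet]
      exact integrableOn_const (hKc.measure_lt_top.ne))
    (Eventually.of_forall fun z s _ => hd' s z)
  exact hmain.2

end

end Pool.Agent.VQ
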