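import Pool.Agent.helper74.VQ.SpecB

/-!
# Project VQ (MP_07c750_an): pointwise symbol calculus, derived from row VSY (used for rows VPB, VPE)
-/

set_option autoImplicit false

open scoped MatrixGroups ContDiff Topology UpperHalfPlane ComplexConjugate ENNReal
open UpperHalfPlane MeasureTheory Filter Set

namespace Pool.Agent.VQ

open Pool.Agent.RS

/-- pointwise symbols -/
def VPB_Sp (K : ℕ) (N m : ℝ) (A : ℂ → ℂ) (v : ℂ) : Prop :=
  ContDiffAt ℝ ∞ A v ∧ ∀ k ≤ K, ‖iteratedFDeriv ℝ k A v‖ ≤ m * N ^ k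

theorem VPB_Sp_cd {K : ℕ} {N m : ℝ} {A : ℂ → ℂ} {v : ℂ} (h : VPB_Sp K N m A v) : ContDiffAt ℝ ∞ A v := h.1

theorem VPB_Sp_congr {K : ℕ} {N m : ℝ} {A A' : ℂ → ℂ} {v : ℂ} (h : VPB_Sp K N m A v) (h' : A' =ᶠ[𝓝 v] A) :
    VPB_Sp K N m A' v := by
  refine ⟨h.1.congr_of_eventuallyEq h', fun k hk => ?_⟩
  rw [(h'.iteratedFDeriv ℝ k).eq_of_nhds]
  exact h.2 k hk

theorem VPB_Sp_mono {K : ℕ} {N N' m m' : ℝ} {A : ℂ → ℂ} {v : ℂ} (h : VPB_Sp K N m A v) (hN : 0 ≤ N) (hm : 0 ≤ m)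
    (hNN : N ≤ N') (hmm : m ≤ m') : VPB_Sp K N' m' A v := by
  refine ⟨h.1, fun k hk => (h.2 k hk).trans ?_⟩
  have h1 : N ^ k ≤ N' ^ k := pow_le_pow_left₀ hN hNN k
  have h2 : 0 ≤ N ^ k := pow_nonneg hN k
  calc m * N ^ k ≤ m' * N ^ k := mul_le_mul_of_nonneg_right hmm h2
    _ ≤ m' * N' ^ k := mul_le_mul_of_nonneg_left h1 (hm.trans hmm)

theorem VPB_Sp_zero {K : ℕ} {N m : ℝ} {v : ℂ} (hN : 0 ≤ N) (hm : 0 ≤ m) : VPB_Sp K N m (fun _ => (0 : ℂ)) v := by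
  refine ⟨contDiffAt_const, fun k _ => ?_⟩
  have h0 : 0 ≤ m * N ^ k := mul_nonneg hm (pow_nonneg hN k)
  rcases Nat.eq_zero_or_pos k with rfl | hk
  · rw [norm_iteratedFDeriv_zero, norm_zero]
    exact h0
  · rw [iteratedFDeriv_const_of_ne hk.ne']
    simpa using h0

theorem VPB_Sp_const {K : ℕ} {N m : ℝ} {v : ℂ} (c : ℂ) (hN : 0 ≤ N) (hc : ‖c‖ ≤ m) :
    VPB_Sp K N m (fun _ => c) v := by
  refine ⟨contDiffAt_const, fun k _ => ?_⟩
  have h0 : 0 ≤ m * N ^ k := mul_nonneg ((norm_nonneg c).trans hc) (pow_nonneg hN k)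
  rcases Nat.eq_zero_or_pos k with rfl | hk
  · rw [norm_iteratedFDeriv_zero, pow_zero, mul_one]
    exact hc
  · rw [iteratedFDeriv_const_of_ne hk.ne']
    simpa using h0

theorem VPB_Sp_iff {K : ℕ} {N m : ℝ} {A : ℂ → ℂ} {v : ℂ} :
    VPB_Sp K N m A v ↔ SyB K N m 0 (fun w => A (v + w)) := by
  have e1 : ∀ k : ℕ, iteratedFDeriv ℝ k (fun w => A (v + w)) 0 = iteratedFDeriv ℝ k A v := by
    intro k
    rw [iteratedFDeriv_comp_add_left, add_zero]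
  have e2 : ContDiffAt ℝ ∞ (fun w => A (v + w)) 0 ↔ ContDiffAt ℝ ∞ A v := by
    constructor
    · intro h
      have h1 : ContDiffAt ℝ ∞ (fun w : ℂ => w - v) v := (contDiff_id.sub contDiff_const).contDiffAt
      have h2 : ContDiffAt ℝ ∞ (fun w => A (v + w)) ((fun w : ℂ => w - v) v) := by
        simpa using h
      have h3 := ContDiffAt.comp (f := fun w : ℂ => w - v) (g := fun w => A (v + w)) v h2 h1
      have h4 : ((fun w => A (v + w)) ∘ fun w : ℂ => w - v) = A := by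
        funext w
        simp
      rwa [h4] at h3
    · intro h
      have h1 : ContDiffAt ℝ ∞ (fun w : ℂ => v + w) 0 := (contDiff_const.add contDiff_id).contDiffAt
      have h2 : ContDiffAt ℝ ∞ A ((fun w : ℂ => v + w) 0) := by
        simpa using h
      exact ContDiffAt.comp 0 h2 h1
  constructor
  · intro h w hw
    have hw0 : w = 0 := by
      simpa using hw
    subst hw0
    refine ⟨e2.2 h.1, fun k hk => ?_⟩
    rw [e1]
    exact h.2 k hk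
  · intro h
    have h1 := h 0 (by simp)
    refine ⟨e2.1 h1.1, fun k hk => ?_⟩
    have h2 := h1.2 k hk
    rwa [e1] at h2

theorem VPB_Sp_cmul {K : ℕ} {N m m' : ℝ} {A : ℂ → ℂ} {v : ℂ} (h : VPB_Sp K N m A v) (c : ℂ) (hN : 0 ≤ N)
    (hm : ‖c‖ * m ≤ m') : VPB_Sp K N m' (fun w => c * A w) v := by
  have h1 : (fun w => c * A w) = fun w => (c • A w) := rfl
  refine ⟨contDiffAt_const.mul h.1, fun k hk => ?_⟩
  have h2 : ContDiffAt ℝ (k : ℕ∞ω) A v := h.1.of_le (by exact_mod_cast le_top)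
  rw [h1]
  have h3 : iteratedFDeriv ℝ k (fun w => c • A w) v = c • iteratedFDeriv ℝ k A v :=
    iteratedFDeriv_const_smul_apply' h2
  rw [h3, norm_smul]
  calc ‖c‖ * ‖iteratedFDeriv ℝ k A v‖ ≤ ‖c‖ * (m * N ^ k) := mul_le_mul_of_nonneg_left (h.2 k hk) (norm_nonneg c)
    _ = ‖c‖ * m * N ^ k := by ring
    _ ≤ m' * N ^ k := mul_le_mul_of_nonneg_right hm (pow_nonneg hN k)

/-- a linear function -/
theorem VPB_Sp_lin {K : ℕ} {N m : ℝ} (L : ℂ →L[ℝ] ℂ) {v : ℂ} (hL : ‖L‖ ≤ 1) (hv : ‖v‖ ≤ m) (hN : 0 ≤ N)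
    (hmN : 1 ≤ m * N) : VPB_Sp K N m (fun w => L w) v := by
  have hm : 0 ≤ m := (norm_nonneg v).trans hv
  refine ⟨L.contDiff.contDiffAt, fun k _ => ?_⟩
  match k with
  | 0 =>
    rw [norm_iteratedFDeriv_zero, pow_zero, mul_one]
    calc ‖L v‖ ≤ ‖L‖ * ‖v‖ := L.le_opNorm v
      _ ≤ 1 * m := mul_le_mul hL hv (norm_nonneg _) zero_le_one
      _ = m := one_mul m
  | 1 =>
    rw [norm_iteratedFDeriv_one, pow_one]
    have h1 : fderiv ℝ (fun w => L w) v = L := L.fderiv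
    rw [h1]
    exact hL.trans hmN
  | (k + 2) =>
    have h0 : 0 ≤ m * N ^ (k + 2) := mul_nonneg hm (pow_nonneg hN _)
    rw [← norm_iteratedFDeriv_fderiv]
    have h1 : fderiv ℝ (fun w => L w) = fun _ => L := by
      funext w
      exact L.fderiv
    rw [h1, iteratedFDeriv_const_of_ne (Nat.succ_ne_zero k)]
    simpa using h0

theorem VPB_Sp_re {K : ℕ} {N m : ℝ} {v : ℂ} (hv : ‖v‖ ≤ m) (hN : 0 ≤ N)
    (hmN : 1 ≤ m * N) : VPB_Sp K N m (fun w => ((w.re : ℝ) : ℂ)) v := by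
  have hL : ‖Complex.ofRealCLM.comp Complex.reCLM‖ ≤ 1 := by
    refine ContinuousLinearMap.opNorm_le_bound _ zero_le_one fun w => ?_
    rw [one_mul]
    change ‖((w.re : ℝ) : ℂ)‖ ≤ ‖w‖
    rw [Complex.norm_real]
    exact Complex.abs_re_le_norm w
  exact VPB_Sp_lin (Complex.ofRealCLM.comp Complex.reCLM) hL hv hN hmN

theorem VPB_Sp_im {K : ℕ} {N m : ℝ} {v : ℂ} (hv : ‖v‖ ≤ m) (hN : 0 ≤ N)
    (hmN : 1 ≤ m * N) : VPB_Sp K N m (fun w => ((w.im : ℝ) : ℂ)) v := by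
  have hL : ‖Complex.ofRealCLM.comp Complex.imCLM‖ ≤ 1 := by
    refine ContinuousLinearMap.opNorm_le_bound _ zero_le_one fun w => ?_
    rw [one_mul]
    change ‖((w.im : ℝ) : ℂ)‖ ≤ ‖w‖
    rw [Complex.norm_real]
    exact Complex.abs_im_le_norm w
  exact VPB_Sp_lin (Complex.ofRealCLM.comp Complex.imCLM) hL hv hN hmN

/-- composition with a real linear map of norm at most one -/
theorem VPB_Sp_comp {K : ℕ} {N m : ℝ} (L : ℂ →L[ℝ] ℂ) {A : ℂ → ℂ} {v : ℂ} (hL : ‖L‖ ≤ 1) (h : VPB_Sp K N m A v) :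
    VPB_Sp K N m (fun w => L (A w)) v := by
  refine ⟨L.contDiff.contDiffAt.comp v h.1, fun k hk => ?_⟩
  have h2 : ContDiffAt ℝ (k : ℕ∞ω) A v := h.1.of_le (by exact_mod_cast le_top)
  have h3 := L.norm_iteratedFDeriv_comp_left h2 (le_refl _)
  have h4 : ‖L‖ * ‖iteratedFDeriv ℝ k A v‖ ≤ 1 * (m * N ^ k) :=
    mul_le_mul hL (h.2 k hk) (norm_nonneg _) zero_le_one
  rw [one_mul] at h4
  exact h3.trans h4

/-- the derivative of a smooth function in a direction -/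
theorem VPB_Sp_fderiv {K : ℕ} {N m : ℝ} {A : ℂ → ℂ} {v e : ℂ} (hA : ContDiff ℝ ∞ A) (he : ‖e‖ ≤ 1)
    (h : ∀ k ≤ K, ‖iteratedFDeriv ℝ (k + 1) A v‖ ≤ m * N ^ k) :
    VPB_Sp K N m (fun w => fderiv ℝ A w e) v := by
  have h1 : ContDiff ℝ ∞ (fderiv ℝ A) := hA.fderiv_right (by simp)
  refine ⟨(h1.clm_apply contDiff_const).contDiffAt, fun k hk => ?_⟩
  have h2 : ContDiffAt ℝ (k : ℕ∞ω) (fderiv ℝ A) v := h1.contDiffAt.of_le (by exact_mod_cast le_top)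
  have h3 := norm_iteratedFDeriv_clm_apply_const (c := e) h2 (le_refl _)
  rw [norm_iteratedFDeriv_fderiv] at h3
  have h4 : ‖e‖ * ‖iteratedFDeriv ℝ (k + 1) A v‖ ≤ 1 * (m * N ^ k) :=
    mul_le_mul he (h k hk) (norm_nonneg _) zero_le_one
  rw [one_mul] at h4
  exact h3.trans h4

/-- the constants of the calculus -/
structure VPB_Cal (K : ℕ) (C : ℝ) : Prop where
  one : 1 ≤ C
  mul : ∀ (N m1 m2 : ℝ) (A1 A2 : ℂ → ℂ) (v : ℂ), 1 ≤ N → 0 ≤ m1 → 0 ≤ m2 → VPB_Sp K N m1 A1 v →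
    VPB_Sp K N m2 A2 v → VPB_Sp K N (C * m1 * m2) (fun w => A1 w * A2 w) v
  add : ∀ (N m1 m2 : ℝ) (A1 A2 : ℂ → ℂ) (v : ℂ), 1 ≤ N → 0 ≤ m1 → 0 ≤ m2 → VPB_Sp K N m1 A1 v →
    VPB_Sp K N m2 A2 v → VPB_Sp K N (m1 + m2) (fun w => A1 w + A2 w) v
  exp : ∀ (N : ℝ) (ψ : ℂ → ℂ) (v : ℂ), 1 ≤ N → ContDiffAt ℝ ∞ ψ v →
    (∀ k, 1 ≤ k → k ≤ K → ‖iteratedFDeriv ℝ k ψ v‖ ≤ N ^ k) →
    VPB_Sp K N (C * Real.exp (ψ v).re) (fun w => Complex.exp (ψ w)) v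

theorem VPB_cal (hVSY : VSY_stmt) (K : ℕ) : ∃ C : ℝ, VPB_Cal K C := by
  obtain ⟨C, hC1, hmul, hexp, _⟩ := hVSY K
  refine ⟨C, hC1, ?_, ?_, ?_⟩
  · intro N m1 m2 A1 A2 v hN h1 h2 hA1 hA2
    rw [VPB_Sp_iff] at hA1 hA2 ⊢
    exact (hmul N m1 m2 0 _ _ hN h1 h2 hA1 hA2).1
  · intro N m1 m2 A1 A2 v hN h1 h2 hA1 hA2
    rw [VPB_Sp_iff] at hA1 hA2 ⊢
    exact (hmul N m1 m2 0 _ _ hN h1 h2 hA1 hA2).2
  · intro N ψ v hN hψ hb
    have hc : ContDiffAt ℝ ∞ (fun w => ψ w + (-((ψ v).re : ℂ))) v := hψ.add contDiffAt_const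
    have key : ∀ k, 1 ≤ k → k ≤ K → ‖iteratedFDeriv ℝ k (fun w => ψ w + (-((ψ v).re : ℂ))) v‖ ≤ N ^ k := by
      intro k hk1 hkK
      have h2 : ContDiffAt ℝ (k : ℕ∞ω) ψ v := hψ.of_le (by exact_mod_cast le_top)
      rw [fun_iteratedFDeriv_add_apply h2 contDiffAt_const, iteratedFDeriv_const_of_ne (by omega)]
      simpa using hb k hk1 hkK
    have hS : SyB K N C 0 (fun w => Complex.exp (ψ (v + w) + (-((ψ v).re : ℂ)))) := by
      apply hexp N 0 (fun w => ψ (v + w) + (-((ψ v).re : ℂ))) hN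
      intro w hw
      have hw0 : w = 0 := by
        simpa using hw
      subst hw0
      refine ⟨?_, ?_, ?_⟩
      · have h1 : ContDiffAt ℝ ∞ (fun w : ℂ => v + w) 0 := (contDiff_const.add contDiff_id).contDiffAt
        have h2 : ContDiffAt ℝ ∞ (fun w => ψ w + (-((ψ v).re : ℂ))) ((fun w : ℂ => v + w) 0) := by
          simpa using hc
        exact ContDiffAt.comp 0 h2 h1
      · simp
      · intro k hk1 hkK
        have e1 : iteratedFDeriv ℝ k (fun w => ψ (v + w) + (-((ψ v).re : ℂ))) 0 =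
            iteratedFDeriv ℝ k (fun w => ψ w + (-((ψ v).re : ℂ))) v := by
          have := iteratedFDeriv_comp_add_left (𝕜 := ℝ) (f := fun w => ψ w + (-((ψ v).re : ℂ))) k v 0
          rw [add_zero] at this
          exact this
        rw [e1]
        exact key k hk1 hkK
    have hP : VPB_Sp K N C (fun w => Complex.exp (ψ w + (-((ψ v).re : ℂ)))) v := by
      rw [VPB_Sp_iff]
      exact hS
    have h3 := VPB_Sp_cmul hP (Complex.exp ((ψ v).re : ℂ)) (zero_le_one.trans hN)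
      (m' := C * Real.exp (ψ v).re) (by
        rw [Complex.norm_exp, Complex.ofReal_re, mul_comm])
    refine VPB_Sp_congr h3 (Eventually.of_forall fun w => ?_)
    change Complex.exp (ψ w) = Complex.exp ((ψ v).re : ℂ) * Complex.exp (ψ w + (-((ψ v).re : ℂ)))
    rw [← Complex.exp_add]
    congr 1
    ring

end Pool.Agent.VQ
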